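import Pool.Agent.SNW.W2

/-!
# SNA, module Nu (helper91): numbers for cap 2, all levels
-/

set_option autoImplicit false

noncomputable section

open Finset

namespace Pool.Agent.SNA

open Pool.Agent.SDG Pool.Agent.SNW

/-- closed form of `cf 2` -/
def c2 (t : ℕ) : ℕ := 1 + (t + 1) * (t + 1) / 4

theorem cf_c2 (t : ℕ) : cf 2 t = c2 t := by
  rw [thm_Nm1.2.2.1, c2, pow_two]

theorem cf_four (t : ℕ) : 4 * cf 2 t = t * t + 2 * t + 4 + t % 2 := by
  rw [cf_c2, c2]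
  rcases Nat.even_or_odd' t with ⟨b, rfl | rfl⟩
  · have e : (2 * b + 1) * (2 * b + 1) = 4 * (b * b + b) + 1 := by ring
    rw [e]
    have e1 : (4 * (b * b + b) + 1) / 4 = b * b + b := by omega
    have e2 : 2 * b % 2 = 0 := by omega
    rw [e1, e2]
    ring
  · have e : (2 * b + 1 + 1) * (2 * b + 1 + 1) = 4 * (b * b + 2 * b + 1) := by ring
    rw [e]
    have e1 : 4 * (b * b + 2 * b + 1) / 4 = b * b + 2 * b + 1 := by omega
    have e2 : (2 * b + 1) % 2 = 1 := by omega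
    rw [e1, e2]
    ring

/-- the bounds in the units `2 ^ (m - 2) / 2`: `e = 1` for the level two, `e = 0` for the levels at least three -/
def PQ (e x : ℕ) : ℕ := if x = 3 then 18 else if x = 4 then 27 + e else if x = 5 then 38 else 4 * cf 2 x

theorem PQ_c2 (e x : ℕ) :
    PQ e x = if x = 3 then 18 else if x = 4 then 27 + e else if x = 5 then 38 else 4 * c2 x := by
  rw [PQ, cf_c2]

theorem PQ_pn (x : ℕ) : PQ 1 x = 2 * pn (x + 1) := by
  rw [PQ, pn, Nat.add_sub_cancel]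
  by_cases h3 : x = 3
  · subst h3
    simp
  by_cases h4 : x = 4
  · subst h4
    simp [cf_c2, c2]
  by_cases h5 : x = 5
  · subst h5
    simp
  rw [if_neg h3, if_neg h4, if_neg h5, if_neg (by omega), if_neg (by omega)]
  ring

theorem PQ_le (e x : ℕ) (he : e ≤ 1) : PQ e x ≤ 4 * cf 2 x := by
  rw [PQ]
  split_ifs with h3 h4 h5
  · subst h3
    simp [cf_c2, c2]
  · subst h4
    simp only [cf_c2, c2]
    omega
  · subst h5
    simp [cf_c2, c2]
  · exact le_rfl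

theorem le_PQ (e x : ℕ) : 4 * cf 2 x ≤ PQ e x + 2 := by
  rw [PQ]
  split_ifs with h3 h4 h5
  · subst h3
    simp [cf_c2, c2]
  · subst h4
    simp only [cf_c2, c2]
    omega
  · subst h5
    simp [cf_c2, c2]
  · omega

theorem PQ_big (e x : ℕ) (hx : 6 ≤ x) : PQ e x = x * x + 2 * x + 4 + x % 2 := by
  rw [PQ, if_neg (by omega), if_neg (by omega), if_neg (by omega), cf_four]

theorem PQ_01 (x : ℕ) : PQ 0 x ≤ PQ 1 x := by
  unfold PQ
  split_ifs <;> omega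

/-! ### Case II -/

/-- computable form of `PQ` -/
def PZ (e x : ℕ) : ℕ := if x = 3 then 18 else if x = 4 then 27 + e else if x = 5 then 38 else 4 * c2 x

theorem PQ_PZ (e x : ℕ) : PQ e x = PZ e x := PQ_c2 e x

/-- the four conditions -/
def IIc (p d y v : ℕ) : Prop :=
  d ≤ 2 * v ∧ 4 * (d * y) ≤ p * (y + 2) ∧ p * (y + 2) * d ≤ 2 * (y * (v * p + d * d)) ∧
    d * p * (5 * y + 2) ≤ y * v * (6 * p + 4 * (y * d))

instance (p d y v : ℕ) : Decidable (IIc p d y v) := by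
  unfold IIc
  infer_instance

/-- the finite check -/
def IIb (e x k : ℕ) : Bool := decide (3 ≤ x → 1 ≤ k → k + 2 ≤ x →
    2 * ((2 * (x - k) + 1) * c2 k) < PZ e x →
      IIc (PZ e x) (PZ e x - PZ e (x - 1)) (c2 k) (2 * (x - k) + 1))

theorem II_fin : ∀ e < 2, ∀ x < 21, ∀ k < 21, IIb e x k = true := by
  decide +kernel

theorem II_c1 (x r : ℕ) (hx : 21 ≤ x) (hr : r ≤ 1) :
    IIc (x * x + 2 * x + 4 + r) (2 * x + 2 * r) 2 (2 * (x - 1) + 1) := by
  obtain ⟨z, rfl⟩ : ∃ z, x = z + 21 := ⟨x - 21, by omega⟩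
  have e1 : 2 * (z + 21 - 1) + 1 = 2 * z + 41 := by omega
  rw [e1]
  have h : r = 0 ∨ r = 1 := by omega
  rcases h with rfl | rfl
  · refine ⟨by nlinarith, by nlinarith, ?_, ?_⟩ <;> nlinarith [Nat.zero_le (z * z), Nat.zero_le (z * z * z)]
  · refine ⟨by nlinarith, by nlinarith, ?_, ?_⟩ <;> nlinarith [Nat.zero_le (z * z), Nat.zero_le (z * z * z)]

theorem II_c2 (x r : ℕ) (hx : 21 ≤ x) (hr : r ≤ 1) :
    IIc (x * x + 2 * x + 4 + r) (2 * x + 2 * r) 3 (2 * (x - 2) + 1) := by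
  obtain ⟨z, rfl⟩ : ∃ z, x = z + 21 := ⟨x - 21, by omega⟩
  have e1 : 2 * (z + 21 - 2) + 1 = 2 * z + 39 := by omega
  rw [e1]
  have h : r = 0 ∨ r = 1 := by omega
  rcases h with rfl | rfl
  · refine ⟨by nlinarith, by nlinarith, ?_, ?_⟩ <;> nlinarith [Nat.zero_le (z * z), Nat.zero_le (z * z * z)]
  · refine ⟨by nlinarith, by nlinarith, ?_, ?_⟩ <;> nlinarith [Nat.zero_le (z * z), Nat.zero_le (z * z * z)]

theorem II_x4 (x k y r : ℕ) (hx : 21 ≤ x) (hk : 3 ≤ k) (hkx : k + 2 ≤ x) (hr : r ≤ 1)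
    (hy : k * k + 2 * k + 4 ≤ 4 * y)
    (ht : 2 * ((2 * (x - k) + 1) * y) < x * x + 2 * x + 4 + r) : 4 * k ≤ x := by
  by_contra hcon
  obtain ⟨d, rfl⟩ : ∃ d, x = k + d := ⟨x - k, by omega⟩
  rw [Nat.add_sub_cancel_left] at ht
  have h1 : (2 * d + 1) * (k * k + 2 * k + 4) ≤ (2 * d + 1) * (4 * y) := Nat.mul_le_mul_left _ hy
  have h2 : (2 * d + 1) * (k * k + 2 * k + 4) + 2 ≤ 2 * ((k + d) * (k + d) + 2 * (k + d) + 5) := by
    have h3 : (2 * d + 1) * (4 * y) = 2 * (2 * ((2 * d + 1) * y)) := by ring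
    omega
  obtain ⟨k', rfl⟩ : ∃ k', k = k' + 6 := ⟨k - 6, by omega⟩
  obtain ⟨d', rfl⟩ : ∃ d', d = d' + 2 := ⟨d - 2, by omega⟩
  have h4 : d' ≤ 3 * k' + 15 := by omega
  have h5 : d' * d' ≤ (3 * k' + 15) * d' := Nat.mul_le_mul_right _ h4
  nlinarith [Nat.zero_le (d' * k'), Nat.zero_le (d' * (k' * k'))]

theorem II_c3 (x k y r : ℕ) (hx : 21 ≤ x) (hk : 3 ≤ k) (hkx : 4 * k ≤ x) (hr : r ≤ 1)
    (hy : k * k + 2 * k + 4 ≤ 4 * y) :
    IIc (x * x + 2 * x + 4 + r) (2 * x + 2 * r) y (2 * (x - k) + 1) := by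
  have hy5 : 5 ≤ y := by nlinarith
  obtain ⟨v, hv⟩ : ∃ v, v = 2 * (x - k) + 1 := ⟨_, rfl⟩
  obtain ⟨p, hp⟩ : ∃ p, p = x * x + 2 * x + 4 + r := ⟨_, rfl⟩
  obtain ⟨d, hd⟩ : ∃ d, d = 2 * x + 2 * r := ⟨_, rfl⟩
  have hv1 : 3 * x + 2 ≤ 2 * v := by omega
  have hp1 : p ≤ x * x + 2 * x + 5 := by omega
  have hd1 : 2 * x ≤ d := by omega
  have hd2 : d ≤ 2 * x + 2 := by omega
  have h4d : 4 * d ≤ p := by nlinarith
  rw [← hv, ← hp, ← hd]
  refine ⟨by omega, ?_, ?_, ?_⟩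
  · calc 4 * (d * y) = 4 * d * y := by ring
      _ ≤ p * y := Nat.mul_le_mul_right _ h4d
      _ ≤ p * (y + 2) := Nat.mul_le_mul_left _ (by omega)
  · have h1 : (y + 2) * d ≤ 2 * (y * v) := by
      have h2 : y * (d + x) ≤ y * (2 * v) := Nat.mul_le_mul_left _ (by omega)
      have h3 : 5 * x ≤ y * x := Nat.mul_le_mul_right _ hy5
      nlinarith
    calc p * (y + 2) * d = p * ((y + 2) * d) := by ring
      _ ≤ p * (2 * (y * v)) := Nat.mul_le_mul_left _ h1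
      _ ≤ 2 * (y * (v * p + d * d)) := by nlinarith [Nat.zero_le (y * (d * d))]
  · have h1 : 10 * p ≤ 12 * x * x + 8 * x := by nlinarith
    have h2 : 12 * x * x + 8 * x ≤ 4 * (d * v) := by
      have h3 : 2 * x * (3 * x + 2) ≤ d * (2 * v) := Nat.mul_le_mul hd1 hv1
      nlinarith
    have h3 : 10 * p * (y * y) ≤ 4 * (d * v) * (y * y) := Nat.mul_le_mul_right _ (h1.trans h2)
    have h4 : 12 * k * y ≤ 10 * y * y := by
      refine Nat.mul_le_mul_right _ ?_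
      nlinarith
    have h5 : 4 * y + 4 * x + 4 ≤ 2 * x * y := by
      have h6 : (2 * x - 4) * 5 ≤ (2 * x - 4) * y := Nat.mul_le_mul_left _ hy5
      have h7 : (2 * x - 4) * y + 4 * y = 2 * x * y := by
        rw [← add_mul]
        congr 1
        omega
      omega
    have h6 : d * (5 * y + 2) ≤ 6 * (y * v) + 10 * y * y := by
      have h7 : 5 * d + 2 * x ≤ 6 * v + 12 * k + 4 := by omega
      have h8 : y * (5 * d + 2 * x) ≤ y * (6 * v + 12 * k + 4) := Nat.mul_le_mul_left _ h7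
      nlinarith
    have h7 : d * (5 * y + 2) * p ≤ (6 * (y * v) + 10 * y * y) * p := Nat.mul_le_mul_right _ h6
    nlinarith

/-- the four conditions hold -/
theorem II_cond (e x k : ℕ) (he : e ≤ 1) (hx : 3 ≤ x) (hk : 1 ≤ k) (hkx : k + 2 ≤ x)
    (ht : 2 * ((2 * (x - k) + 1) * cf 2 k) < PQ e x) :
    IIc (PQ e x) (PQ e x - PQ e (x - 1)) (cf 2 k) (2 * (x - k) + 1) := by
  rcases Nat.lt_or_ge x 21 with h | h
  · rw [PQ_PZ, PQ_PZ, cf_c2]
    rw [PQ_PZ, cf_c2] at ht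
    exact of_decide_eq_true (II_fin e (by omega) x h k (by omega)) hx hk hkx ht
  · obtain ⟨r, hr⟩ : ∃ r, r = x % 2 := ⟨_, rfl⟩
    have hr1 : r ≤ 1 := by omega
    have e1 : PQ e x = x * x + 2 * x + 4 + r := by rw [PQ_big e x (by omega), hr]
    have e2 : PQ e x - PQ e (x - 1) = 2 * x + 2 * r := by
      rw [e1, PQ_big e (x - 1) (by omega)]
      obtain ⟨z, rfl⟩ : ∃ z, x = z + 1 := ⟨x - 1, by omega⟩
      rw [Nat.add_sub_cancel]
      have e3 : z % 2 = 1 - r := by omega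
      rw [e3]
      have e4 : (z + 1) * (z + 1) = z * z + 2 * z + 1 := by ring
      rw [e4]
      omega
    rw [e2, e1]
    rw [e1] at ht
    have hy := cf_four k
    rcases Nat.lt_or_ge k 3 with h3 | h3
    · have : k = 1 ∨ k = 2 := by omega
      rcases this with rfl | rfl
      · have e5 : cf 2 1 = 2 := by rw [cf_c2, c2]
        rw [e5]
        exact II_c1 x r h hr1
      · have e5 : cf 2 2 = 3 := by rw [cf_c2, c2]
        rw [e5]
        exact II_c2 x r h hr1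
    · exact II_c3 x k _ r h h3 (II_x4 x k _ r h h3 hkx hr1 (by omega) ht) hr1 (by omega)

/-- Case II, branch A -/
theorem II_A (u p d y0 v X j N Y y : ℚ) (hu : 0 < u) (hy0 : 0 < y0) (hj : 0 ≤ j)
    (hX : 2 * X < u * p) (hX0 : 0 < X) (hjd : 2 * j < u * d) (hN : u * v ≤ N) (hY : y0 ≤ Y)
    (hc : y * N ≤ X + j * (y - Y)) (hb : X * Y < 2 * (y * j)) (h1 : d ≤ 2 * v)
    (h2 : 4 * (d * y0) ≤ p * (y0 + 2)) (h3 : p * (y0 + 2) * d ≤ 2 * (y0 * (v * p + d * d))) :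
    False := by
  have ha : 0 < N - j := by
    have := mul_le_mul_of_nonneg_left h1 hu.le
    linarith
  have hYp : 0 < Y := lt_of_lt_of_le hy0 hY
  have hj0 : 0 < j := by
    by_contra hcon
    have : j = 0 := by linarith
    rw [this] at hb
    have := mul_pos hX0 hYp
    linarith
  -- `Y (X a + 2 j ^ 2) < 2 j X`
  have s1 : y * (N - j) ≤ X - j * Y := by linarith
  have s2 : X * Y * (N - j) < 2 * (y * j) * (N - j) := mul_lt_mul_of_pos_right hb ha
  have s3 : 2 * j * (y * (N - j)) ≤ 2 * j * (X - j * Y) :=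
    mul_le_mul_of_nonneg_left s1 (by linarith)
  have s4 : Y * (X * (N - j) + 2 * j * j) < 2 * (j * X) := by linarith
  have s5 : 0 < X * (N - j) + 2 * j * j := by
    have := mul_pos hX0 ha
    have := mul_pos hj0 hj0
    linarith
  have s6 : y0 * (X * (N - j) + 2 * j * j) < 2 * (j * X) :=
    lt_of_le_of_lt (mul_le_mul_of_nonneg_right hY s5.le) s4
  have s7 : y0 * X * (u * v) ≤ y0 * X * N := mul_le_mul_of_nonneg_left hN (mul_pos hy0 hX0).le
  have s8 : 2 * (j * j * y0) < X * ((y0 + 2) * j - u * v * y0) := by linarith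
  have s9 : 0 < (y0 + 2) * j - u * v * y0 := by
    by_contra hcon
    push Not at hcon
    have h := mul_nonpos_of_nonneg_of_nonpos hX0.le hcon
    have := mul_pos (mul_pos hj0 hj0) hy0
    linarith
  have s10 : 2 * X * ((y0 + 2) * j - u * v * y0) < u * p * ((y0 + 2) * j - u * v * y0) :=
    mul_lt_mul_of_pos_right hX s9
  -- `j = u d / 2 - i / 2`
  obtain ⟨i, hi⟩ : ∃ i, i = u * d - 2 * j := ⟨_, rfl⟩
  have hi0 : 0 < i := by linarith
  have hj2 : j = (u * d - i) / 2 := by linarith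
  have s11 : 4 * (j * j * y0) < u * p * ((y0 + 2) * j - u * v * y0) := by linarith
  have s12 : u * u * (p * (y0 + 2) * d) ≤ u * u * (2 * (y0 * (v * p + d * d))) :=
    mul_le_mul_of_nonneg_left h3 (mul_pos hu hu).le
  have s13 : u * i * (4 * (d * y0)) ≤ u * i * (p * (y0 + 2)) :=
    mul_le_mul_of_nonneg_left h2 (mul_pos hu hi0).le
  have s14 : 0 ≤ i * i * y0 := mul_nonneg (mul_self_nonneg i) hy0.le
  rw [hj2] at s11
  nlinarith

/-- Case II, branch B -/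
theorem II_B (u p d y0 v X j N Y y : ℚ) (hu : 0 < u) (hy0 : 0 < y0) (hj : 0 ≤ j) (hp : 0 < p)
    (hv : 0 < v)
    (hX : 2 * X < u * p) (hX0 : 0 < X) (hjd : 2 * j < u * d) (hN : u * v ≤ N) (hY : y0 ≤ Y)
    (hc : y * N ≤ X + j * (y - Y))
    (hb : 3 * X * Y < 2 * (j * Y * (y - Y)) + 2 * (y * j)) (h1 : d ≤ 2 * v)
    (h4 : d * p * (5 * y0 + 2) ≤ y0 * v * (6 * p + 4 * (y0 * d))) : False := by
  have ha : 0 < N - j := by
    have := mul_le_mul_of_nonneg_left h1 hu.le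
    linarith
  have hYp : 0 < Y := lt_of_lt_of_le hy0 hY
  have hj0 : 0 < j := by
    by_contra hcon
    have : j = 0 := by linarith
    rw [this] at hb
    have := mul_pos hX0 hYp
    linarith
  have s1 : y * (N - j) ≤ X - j * Y := by linarith
  have s2 : (3 * X * Y + 2 * j * Y * Y) * (N - j) < 2 * j * (Y + 1) * y * (N - j) := by
    refine mul_lt_mul_of_pos_right ?_ ha
    linarith
  have s3 : 2 * j * (Y + 1) * (y * (N - j)) ≤ 2 * j * (Y + 1) * (X - j * Y) :=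
    mul_le_mul_of_nonneg_left s1 (by positivity)
  have s4 : Y * (3 * X * N - 5 * X * j + 2 * j * Y * N + 2 * j * j) < 2 * (j * X) := by linarith
  have hN0 : 0 < N := by linarith
  have s5 : y0 * (3 * X * N - 5 * X * j + 2 * j * y0 * N + 2 * j * j) < 2 * (j * X) := by
    by_contra hcon
    push Not at hcon
    have h5 : 0 < j * X := mul_pos hj0 hX0
    have h6 : 0 < 3 * X * N - 5 * X * j + 2 * j * y0 * N + 2 * j * j := by
      by_contra h7
      push Not at h7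
      have := mul_nonpos_of_nonneg_of_nonpos hy0.le h7
      linarith
    have h7 : y0 * (3 * X * N - 5 * X * j + 2 * j * y0 * N + 2 * j * j) ≤
        Y * (3 * X * N - 5 * X * j + 2 * j * y0 * N + 2 * j * j) :=
      mul_le_mul_of_nonneg_right hY h6.le
    have h8 : 2 * j * N * y0 ≤ 2 * j * N * Y := mul_le_mul_of_nonneg_left hY (by positivity)
    have h9 : Y * (3 * X * N - 5 * X * j + 2 * j * y0 * N + 2 * j * j) ≤
        Y * (3 * X * N - 5 * X * j + 2 * j * Y * N + 2 * j * j) :=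
      mul_le_mul_of_nonneg_left (by linarith) hYp.le
    linarith
  have s6 : (y0 * 3 * X + 2 * j * y0 * y0) * (u * v) ≤ (y0 * 3 * X + 2 * j * y0 * y0) * N :=
    mul_le_mul_of_nonneg_left hN (by positivity)
  have s7 : 2 * (j * y0 * y0) * (u * v) < X * ((5 * y0 + 2) * j - 3 * (u * v * y0)) := by
    have : 0 < j * j * y0 := mul_pos (mul_pos hj0 hj0) hy0
    linarith
  have s8 : 0 < (5 * y0 + 2) * j - 3 * (u * v * y0) := by
    by_contra hcon
    push Not at hcon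
    have h := mul_nonpos_of_nonneg_of_nonpos hX0.le hcon
    have : 0 < 2 * (j * y0 * y0) * (u * v) := by positivity
    linarith
  have s9 : 2 * X * ((5 * y0 + 2) * j - 3 * (u * v * y0)) <
      u * p * ((5 * y0 + 2) * j - 3 * (u * v * y0)) := mul_lt_mul_of_pos_right hX s8
  have s10 : 3 * (u * u * (p * v * y0)) < j * u * (p * (5 * y0 + 2) - 4 * (y0 * y0 * v)) := by
    linarith
  have s11 : 0 < p * (5 * y0 + 2) - 4 * (y0 * y0 * v) := by
    by_contra hcon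
    push Not at hcon
    have h := mul_nonpos_of_nonneg_of_nonpos (mul_pos hj0 hu).le hcon
    have : 0 < 3 * (u * u * (p * v * y0)) := by positivity
    linarith
  have s12 : 2 * j * (u * (p * (5 * y0 + 2) - 4 * (y0 * y0 * v))) <
      u * d * (u * (p * (5 * y0 + 2) - 4 * (y0 * y0 * v))) :=
    mul_lt_mul_of_pos_right hjd (mul_pos hu s11)
  have s13 : u * u * (d * p * (5 * y0 + 2)) ≤ u * u * (y0 * v * (6 * p + 4 * (y0 * d))) :=
    mul_le_mul_of_nonneg_left h4 (mul_pos hu hu).le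
  linarith

/-- Case II -/
theorem II_num (e x k u X j N Y y μ : ℕ) (he : e ≤ 1) (hx : 3 ≤ x) (hk : 1 ≤ k) (hkx : k + 2 ≤ x)
    (hu : 1 ≤ u) (hX : 2 * X < u * PQ e x) (hj : 2 * j + u * PQ e (x - 1) ≤ 2 * X)
    (hN : u * (2 * (x - k) + 1) ≤ N) (hNY : N * Y ≤ X) (hY : cf 2 k ≤ Y) (hy : Y + 1 ≤ y)
    (hc : y * N ≤ X + j * (y - Y)) (hμ : 5 ≤ μ)
    (hD : (μ - 2) * X < 2 * (j * (y - Y)) + 2 * (y * (j / Y) * (μ - 4))) : False := by
  have ht : 2 * ((2 * (x - k) + 1) * cf 2 k) < PQ e x := by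
    have h1 : u * (2 * (x - k) + 1) * cf 2 k ≤ X := (Nat.mul_le_mul hN hY).trans hNY
    have h2 : u * (2 * ((2 * (x - k) + 1) * cf 2 k)) < u * PQ e x := by
      calc u * (2 * ((2 * (x - k) + 1) * cf 2 k)) = 2 * (u * (2 * (x - k) + 1) * cf 2 k) := by ring
        _ ≤ 2 * X := Nat.mul_le_mul_left _ h1
        _ < _ := hX
    exact Nat.lt_of_mul_lt_mul_left h2
  obtain ⟨c1, c2', c3, c4⟩ := II_cond e x k he hx hk hkx ht
  obtain ⟨d, hd⟩ : ∃ d, d = PQ e x - PQ e (x - 1) := ⟨_, rfl⟩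
  obtain ⟨v, hv⟩ : ∃ v, v = 2 * (x - k) + 1 := ⟨_, rfl⟩
  obtain ⟨p, hp⟩ : ∃ p, p = PQ e x := ⟨_, rfl⟩
  obtain ⟨y0, hy0⟩ : ∃ y0, y0 = cf 2 k := ⟨_, rfl⟩
  have hy01 : 1 ≤ y0 := by
    rw [hy0]
    have := thm_Nm1.2.2.2.2.2 2 k
    omega
  have hjd : 2 * j < u * d := by
    rw [hd, Nat.mul_sub]
    omega
  rw [← hd] at c1 c2' c3 c4
  rw [← hv] at c1 c3 c4
  rw [← hp, ← hy0] at c2' c3 c4
  rw [← hv] at hN
  rw [← hp] at hX
  rw [← hy0] at hY
  have hN1 : 1 ≤ N := by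
    have h1 : 1 ≤ u * v := Nat.mul_pos hu (by omega)
    omega
  have hX0 : 0 < X := by
    have h1 : 1 ≤ N * Y := Nat.mul_pos hN1 (by omega)
    omega
  have hYy : ((y - Y : ℕ) : ℚ) = (y : ℚ) - (Y : ℚ) := by
    rw [Nat.cast_sub (by omega)]
  obtain ⟨q, hq⟩ : ∃ q, q = j / Y := ⟨_, rfl⟩
  have hqY : q * Y ≤ j := hq ▸ Nat.div_mul_le_self j Y
  rw [← hq] at hD
  have r1 : (0 : ℚ) < u := by exact_mod_cast hu
  have r2 : (0 : ℚ) < y0 := by exact_mod_cast hy01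
  have r3 : (0 : ℚ) ≤ j := Nat.cast_nonneg j
  have r4 : (2 : ℚ) * X < u * p := by exact_mod_cast hX
  have r5 : (0 : ℚ) < X := by exact_mod_cast hX0
  have r6 : (2 : ℚ) * j < u * d := by exact_mod_cast hjd
  have r7 : (u : ℚ) * v ≤ N := by exact_mod_cast hN
  have r8 : (y0 : ℚ) ≤ Y := by exact_mod_cast hY
  have r10 : (y : ℚ) * N ≤ X + j * (y - Y) := by
    rw [← hYy]
    exact_mod_cast hc
  have r11 : (d : ℚ) ≤ 2 * v := by exact_mod_cast c1
  rcases Nat.lt_or_ge X (2 * (y * q)) with hA | hB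
  · have h1 : X * Y < 2 * (y * j) := by
      calc X * Y < 2 * (y * q) * Y := Nat.mul_lt_mul_of_pos_right hA (by omega)
        _ = 2 * (y * (q * Y)) := by ring
        _ ≤ _ := Nat.mul_le_mul_left _ (Nat.mul_le_mul_left _ hqY)
    exact II_A u p d y0 v X j N Y y r1 r2 r3 r4 r5 r6 r7 r8 r10 (by exact_mod_cast h1) r11
      (by exact_mod_cast c2') (by exact_mod_cast c3)
  · obtain ⟨n, rfl⟩ : ∃ n, μ = n + 5 := ⟨μ - 5, by omega⟩
    have e1 : n + 5 - 2 = n + 3 := by omega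
    have e2 : n + 5 - 4 = n + 1 := by omega
    rw [e1, e2] at hD
    have h1 : n * (2 * (y * q)) ≤ n * X := Nat.mul_le_mul_left _ hB
    have h2 : 3 * X < 2 * (j * (y - Y)) + 2 * (y * q) := by nlinarith
    have h3 : 3 * X * Y < 2 * (j * Y * (y - Y)) + 2 * (y * j) := by
      calc 3 * X * Y < (2 * (j * (y - Y)) + 2 * (y * q)) * Y :=
            Nat.mul_lt_mul_of_pos_right h2 (by omega)
        _ = 2 * (j * Y * (y - Y)) + 2 * (y * (q * Y)) := by ring
        _ ≤ _ := Nat.add_le_add_left (Nat.mul_le_mul_left _ (Nat.mul_le_mul_left _ hqY)) _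
    refine II_B u p d y0 v X j N Y y r1 r2 r3 ?_ ?_ r4 r5 r6 r7 r8 r10 ?_ r11 (by exact_mod_cast c4)
    · have h4 : 0 < u * p := by omega
      exact_mod_cast Nat.pos_of_mul_pos_left h4
    · exact_mod_cast (by omega : 0 < v)
    · rw [← hYy]
      exact_mod_cast h3

/-! ### Case I and the products -/

theorem s_ge (w i : ℕ) (h14 : 14 ≤ w + i) (hi : i ≤ w) :
    2 * (w + i) * (w + i) + 4 * (w + i) + 10 ≤ (i + 3) * (w * w + 3) := by
  obtain ⟨z, rfl⟩ : ∃ z, w = z + 7 := ⟨w - 7, by omega⟩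
  have h1 : i * i ≤ i * (z + 7) := Nat.mul_le_mul_left _ hi
  nlinarith [Nat.zero_le (i * z), Nat.zero_le (i * (z * z))]

theorem cf_ge (t : ℕ) : (t + 1) * (t + 1) + 3 ≤ 4 * cf 2 t := by
  rw [cf_four]
  nlinarith [Nat.zero_le (t % 2)]

theorem PQ_ub (e x : ℕ) (he : e ≤ 1) : PQ e x ≤ x * x + 2 * x + 5 := by
  have h1 := PQ_le e x he
  rw [cf_four] at h1
  omega

/-- the product -/
theorem prod_ge (e x a k : ℕ) (he : e ≤ 1) (hx : 14 ≤ x) (ha : 2 ≤ a) (hak : a + k = x + 1)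
    (h : 2 * a ≤ x + 4) : 2 * PQ e x ≤ 4 * ((a + 1) * cf 2 k) := by
  obtain ⟨i, rfl⟩ : ∃ i, a = i + 2 := ⟨a - 2, by omega⟩
  have h1 := s_ge (k + 1) i (by omega) (by omega)
  have h2 := cf_ge k
  have h3 := PQ_ub e x he
  have h4 : (i + 3) * ((k + 1) * (k + 1) + 3) ≤ (i + 3) * (4 * cf 2 k) := Nat.mul_le_mul_left _ h2
  have h5 : x = k + 1 + i := by omega
  rw [← h5] at h1
  have e1 : i + 2 + 1 = i + 3 := by omega
  rw [e1]
  have h6 : 4 * ((i + 3) * cf 2 k) = (i + 3) * (4 * cf 2 k) := by ring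
  rw [h6]
  nlinarith

/-- the finite check for the products -/
def stb (x k : ℕ) : Bool := decide (1 ≤ k → k ≤ x →
    2 * PZ 1 x ≤ 4 * (c2 (x + 1 - k) * c2 k) ∧ 2 * PZ 0 x ≤ PZ 0 (x + 1 - k) * c2 k)

theorem st_fin : ∀ x < 14, ∀ k < 14, stb x k = true := by
  decide +kernel

theorem cf_one : cf 2 1 = 2 := by rw [cf_c2, c2]

theorem star2 (x a k : ℕ) (ha : 1 ≤ a) (hk : 1 ≤ k) (hak : a + k = x + 1) :
    2 * PQ 1 x ≤ 4 * (cf 2 a * cf 2 k) := by
  rcases Nat.lt_or_ge x 14 with hx | hx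
  · have h1 := (of_decide_eq_true (st_fin x hx k (by omega)) hk (by omega)).1
    have e1 : x + 1 - k = a := by omega
    rw [e1] at h1
    rw [PQ_PZ, cf_c2, cf_c2]
    exact h1
  · have h0 := PQ_le 1 x le_rfl
    have ga : a + 1 ≤ cf 2 a := thm_Nm1.2.2.2.2.2 2 a
    have gk : k + 1 ≤ cf 2 k := thm_Nm1.2.2.2.2.2 2 k
    by_cases h1 : a = 1
    · subst h1
      have : k = x := by omega
      subst this
      rw [cf_one]
      omega
    by_cases h2 : k = 1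
    · subst h2
      have : a = x := by omega
      subst this
      rw [cf_one]
      omega
    by_cases h3 : 2 * a ≤ x + 4
    · exact (prod_ge 1 x a k le_rfl hx (by omega) hak h3).trans
        (Nat.mul_le_mul_left _ (Nat.mul_le_mul_right _ ga))
    · refine (prod_ge 1 x k a le_rfl hx (by omega) (by omega) (by omega)).trans ?_
      rw [mul_comm (cf 2 a)]
      exact Nat.mul_le_mul_left _ (Nat.mul_le_mul_right _ gk)

theorem star0 (x a k : ℕ) (ha : 1 ≤ a) (hk : 1 ≤ k) (hak : a + k = x + 1) :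
    2 * PQ 0 x ≤ PQ 0 a * cf 2 k := by
  rcases Nat.lt_or_ge x 14 with hx | hx
  · have h1 := (of_decide_eq_true (st_fin x hx k (by omega)) hk (by omega)).2
    have e1 : x + 1 - k = a := by omega
    rw [e1] at h1
    rw [PQ_PZ, PQ_PZ, cf_c2]
    exact h1
  · have h0 := PQ_le 0 x (by omega)
    have gk : k + 1 ≤ cf 2 k := thm_Nm1.2.2.2.2.2 2 k
    rcases Nat.lt_or_ge a 6 with h6 | h6
    · by_cases h1 : a = 1
      · subst h1
        have h2 : k = x := by omega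
        subst h2
        have h3 : PQ 0 1 = 8 := by
          rw [PQ_PZ]
          decide
        rw [h3]
        omega
      · refine (prod_ge 0 x a k (by omega) hx (by omega) hak (by omega)).trans ?_
        rw [← mul_assoc]
        refine Nat.mul_le_mul_right _ ?_
        have h7 : a = 2 ∨ a = 3 ∨ a = 4 ∨ a = 5 := by omega
        rcases h7 with rfl | rfl | rfl | rfl <;> rw [PQ_PZ, PZ] <;> simp [c2]
    · have h7 : PQ 0 a = 4 * cf 2 a := by
        rw [PQ, if_neg (by omega), if_neg (by omega), if_neg (by omega)]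
      rw [h7, mul_assoc]
      have ga : a + 1 ≤ cf 2 a := thm_Nm1.2.2.2.2.2 2 a
      by_cases h2 : k = 1
      · subst h2
        have : a = x := by omega
        subst this
        rw [cf_one]
        omega
      by_cases h3 : 2 * a ≤ x + 4
      · exact (prod_ge 0 x a k (by omega) hx (by omega) hak h3).trans
          (Nat.mul_le_mul_left _ (Nat.mul_le_mul_right _ ga))
      · refine (prod_ge 0 x k a (by omega) hx (by omega) (by omega) (by omega)).trans ?_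
        rw [mul_comm (cf 2 a)]
        exact Nat.mul_le_mul_left _ (Nat.mul_le_mul_right _ gk)

/-- level two, the members of `R` do not generate `R` -/
def I2b (x e : ℕ) : Bool := decide (2 ≤ e → e ≤ x → 4 * e < 4 + (PZ 1 x - PZ 1 (x - 1)) →
    PZ 1 x ≤ 4 * ((e + 1) * c2 (x + 1 - e)))

theorem I2_fin : ∀ x < 14, ∀ e < 14, 3 ≤ x → I2b x e = true := by
  decide +kernel

theorem dl (e x : ℕ) (hx : 7 ≤ x) : PQ e x - PQ e (x - 1) ≤ 2 * x + 2 := by
  rw [PQ_big e x (by omega), PQ_big e (x - 1) (by omega)]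
  obtain ⟨z, rfl⟩ : ∃ z, x = z + 1 := ⟨x - 1, by omega⟩
  rw [Nat.add_sub_cancel]
  have e4 : (z + 1) * (z + 1) = z * z + 2 * z + 1 := by ring
  rw [e4]
  omega

theorem I2_num (x e k X j N Y : ℕ) (hx : 3 ≤ x) (he : 2 ≤ e) (hk : 1 ≤ k) (hek : e + k = x + 1)
    (hX : 2 * X < PQ 1 x) (hj : 2 * j + PQ 1 (x - 1) ≤ 2 * X) (hN : e + 1 ≤ N)
    (hNj : 2 * N < 4 + j) (hY : cf 2 k ≤ Y) (hNY : 2 * (N * Y) ≤ X) : False := by
  have h1 : 4 * e < 4 + (PQ 1 x - PQ 1 (x - 1)) := by omega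
  have h2 : (e + 1) * cf 2 k ≤ N * Y := Nat.mul_le_mul hN hY
  have h3 : 4 * ((e + 1) * cf 2 k) < PQ 1 x := by omega
  rcases Nat.lt_or_ge x 14 with h | h
  · have h4 := of_decide_eq_true (I2_fin x h e (by omega) hx) he (by omega)
    have e1 : x + 1 - e = k := by omega
    rw [e1, ← cf_c2, ← PQ_PZ, ← PQ_PZ] at h4
    have := h4 h1
    omega
  · have h4 := dl 1 x (by omega)
    have h5 := prod_ge 1 x e k le_rfl h he hek (by omega)
    omega

/-- computable form of `pn` -/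
def pz (t : ℕ) : ℕ := if t = 4 then 9 else if t = 6 then 19 else 2 * c2 (t - 1)

theorem pn_pz (t : ℕ) : pn t = pz t := by rw [pn, pz, cf_c2]

def Ib (x k k' : ℕ) : Bool := decide (1 ≤ k → k + 1 ≤ x → 2 * ((x - k + 2) * c2 k) < PZ 0 x →
    k + 3 ≤ k' → k' ≤ x → 4 * (x - k) < 2 * (k' - k) + (PZ 0 x - PZ 0 (x - 1)) →
      (x - k' + 3) * pz k' < PZ 0 x → x = 5 ∧ k = 1 ∧ k' = 4)

theorem I_fin : ∀ x < 14, ∀ k < 14, ∀ k' < 14, 3 ≤ x → Ib x k k' = true := by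
  decide +kernel

/-- Case I, levels at least three, without the exception -/
theorem I_num1 (x k k' : ℕ) (hx : 3 ≤ x) (hk : 1 ≤ k) (hkx : k + 1 ≤ x)
    (ht : 2 * ((x - k + 2) * cf 2 k) < PQ 0 x) (hkk : k + 3 ≤ k') (hk' : k' ≤ x)
    (hd : 4 * (x - k) < 2 * (k' - k) + (PQ 0 x - PQ 0 (x - 1)))
    (hp : (x - k' + 3) * pn k' < PQ 0 x) : x = 5 ∧ k = 1 ∧ k' = 4 := by
  rcases Nat.lt_or_ge x 14 with h | h
  · rw [PQ_PZ, PQ_PZ] at hd
    rw [PQ_PZ, cf_c2] at ht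
    rw [PQ_PZ, pn_pz] at hp
    exact of_decide_eq_true (I_fin x h k (by omega) k' (by omega) hx) hk hkx ht hkk hk' hd hp
  · exfalso
    have h1 := dl 0 x (by omega)
    have h2 : x ≤ k' + k := by omega
    have h3 : 2 * k + 2 < x := by
      by_contra hcon
      have h4 := prod_ge 0 x (x + 1 - k) k (by omega) h (by omega) (by omega) (by omega)
      have e1 : x + 1 - k + 1 = x - k + 2 := by omega
      rw [e1] at h4
      omega
    have h4 := prod_ge 0 x (x - k' + 2) (k' - 1) (by omega) h (by omega) (by omega) (by omega)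
    have e1 : x - k' + 2 + 1 = x - k' + 3 := by omega
    have e2 : pn k' = 2 * cf 2 (k' - 1) := by
      rw [pn, if_neg (by omega), if_neg (by omega)]
    rw [e1] at h4
    rw [e2] at hp
    have e3 : (x - k' + 3) * (2 * cf 2 (k' - 1)) = 2 * ((x - k' + 3) * cf 2 (k' - 1)) := by ring
    omega

theorem cf_lin (g n : ℕ) (hg : 1 ≤ g) : 2 * n + 1 ≤ cf g n + g := by
  induction n with
  | zero =>
    have := thm_Nm1.2.2.2.2.2 g 0
    omega
  | succ n ih =>
    have h1 := thm_Nm1.1 g n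
    have h2 := thm_Nm1.2.2.2.2.2 g n
    rcases Nat.lt_or_ge n g with h | h
    · have h3 := thm_Nm1.2.2.2.2.2 g (n + 1)
      omega
    · have h3 : 1 ≤ n / g := (Nat.one_le_div_iff (by omega)).2 h
      omega

theorem cf45 : cf 4 5 = 7 := by
  have h : 2 * cf 4 5 = 2 + 4 * 1 * (1 + 1) + 2 * 1 * (1 + 1) :=
    thm_Nm1.2.1 4 1 1 (by omega) (by omega)
  omega

/-- Case I, levels at least three -/
theorem I_num (x k u X j N Y y b h k' V W : ℕ) (hx : 3 ≤ x) (hk : 1 ≤ k) (hkx : k + 1 ≤ x)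
    (hX : 2 * X < 2 * u * PQ 0 x) (hj : 2 * j + 2 * u * PQ 0 (x - 1) ≤ 2 * X)
    (hXy : X < y * (4 * u)) (hc : y * N ≤ X + j * (y - Y)) (hNY : N * Y ≤ X) (hY : cf 2 k ≤ Y)
    (hy : Y + 1 ≤ y) (hN1 : 2 * u * (x - k + 2) ≤ N) (hb : 3 ≤ b) (hh : 2 ≤ h) (hhb : 2 * h ≤ b + 1)
    (hN2 : 2 * u * cf (2 * h) (x - k + 1) ≤ N) (hkb : k + b ≤ k') (hk' : k' ≤ x)
    (hW : u * (x - k' + 3) ≤ W) (hV : pn k' ≤ V) (hWV : W * V ≤ X) : False := by
  have ht : 2 * ((x - k + 2) * cf 2 k) < PQ 0 x := by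
    have h1 : 2 * u * (x - k + 2) * cf 2 k ≤ X := (Nat.mul_le_mul hN1 hY).trans hNY
    have h2 : 2 * u * (2 * ((x - k + 2) * cf 2 k)) < 2 * u * PQ 0 x := by
      calc 2 * u * (2 * ((x - k + 2) * cf 2 k)) = 2 * (2 * u * (x - k + 2) * cf 2 k) := by ring
        _ ≤ 2 * X := Nat.mul_le_mul_left _ h1
        _ < _ := hX
    exact Nat.lt_of_mul_lt_mul_left h2
  have hp : (x - k' + 3) * pn k' < PQ 0 x := by
    have h1 : u * (x - k' + 3) * pn k' ≤ X := (Nat.mul_le_mul hW hV).trans hWV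
    have h2 : u * ((x - k' + 3) * pn k') < u * PQ 0 x := by
      calc u * ((x - k' + 3) * pn k') = u * (x - k' + 3) * pn k' := by ring
        _ ≤ X := h1
        _ < _ := by
          have : 2 * u * PQ 0 x = 2 * (u * PQ 0 x) := by ring
          omega
    exact Nat.lt_of_mul_lt_mul_left h2
  -- `N < 4 u + j`
  obtain ⟨d, hd⟩ : ∃ d, y = Y + d := ⟨y - Y, by omega⟩
  have hNj : N < 4 * u + j := by
    have h1 : y * N < y * (4 * u + j) := by
      calc y * N ≤ X + j * (y - Y) := hc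
        _ < y * (4 * u) + j * y := Nat.add_lt_add_of_lt_of_le hXy (Nat.mul_le_mul_left _ (Nat.sub_le _ _))
        _ = _ := by ring
    exact Nat.lt_of_mul_lt_mul_left h1
  obtain ⟨q, hq⟩ : ∃ q, q = PQ 0 x - PQ 0 (x - 1) := ⟨_, rfl⟩
  have hjq : 2 * j < 2 * u * q := by
    rw [hq, Nat.mul_sub]
    omega
  have hdd : 4 * (x - k) < 2 * (k' - k) + q := by
    have h1 := cf_lin (2 * h) (x - k + 1) (by omega)
    have h2 : 2 * u * (2 * (x - k + 1) + 1) ≤ 2 * u * (cf (2 * h) (x - k + 1) + 2 * h) :=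
      Nat.mul_le_mul_left _ h1
    have h3 : 2 * u * (2 * (x - k + 1) + 1) < 4 * u + u * q + 2 * u * (2 * h) := by
      have h4 : 2 * u * (cf (2 * h) (x - k + 1) + 2 * h) =
        2 * u * cf (2 * h) (x - k + 1) + 2 * u * (2 * h) := by ring
      have h5 : 2 * u * q = 2 * (u * q) := by ring
      omega
    have h4 : u * (2 * (2 * (x - k + 1) + 1)) < u * (4 + q + 4 * h) := by nlinarith
    have h5 := Nat.lt_of_mul_lt_mul_left h4
    omega
  rw [hq] at hdd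
  obtain ⟨rfl, rfl, rfl⟩ := I_num1 x k k' hx hk hkx ht (by omega) hk' hdd hp
  have hb3 : b = 3 := by omega
  have hh2 : h = 2 := by omega
  subst hb3
  subst hh2
  have e1 : PQ 0 5 = 38 := by rw [PQ_PZ, PZ]; simp
  have e2 : PQ 0 4 = 27 := by rw [PQ_PZ, PZ]; simp
  have e3 : 5 - 1 + 1 = 5 := by omega
  have e4 : (5 - 1 : ℕ) = 4 := by omega
  rw [e3] at hN2
  have e5 : (2 * 2 : ℕ) = 4 := by omega
  rw [e5, cf45] at hN2
  rw [e4, e1, e2] at hq
  subst hq
  rw [e1] at hX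
  rw [cf_one] at hY
  subst hd
  rw [Nat.add_sub_cancel_left] at hc
  have h1 : (Y + d) * (2 * u * 7) ≤ (Y + d) * N := Nat.mul_le_mul_left _ hN2
  have h2 : 2 * j * d < 2 * u * 11 * d := Nat.mul_lt_mul_of_pos_right hjq (by omega)
  -- `y ≤ 12`
  have h3 : 2 * u * (3 * (Y + d)) < 2 * u * 38 := by nlinarith
  have h4 := Nat.lt_of_mul_lt_mul_left h3
  have h5 : 2 * u * (10 * (Y + d)) < 2 * u * (11 * d) := by nlinarith
  have h6 := Nat.lt_of_mul_lt_mul_left h5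
  omega

end Pool.Agent.SNA
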