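import Pool.Agent.SNR.Lm
import Pool.Agent.SNA.Nu

/-!
# SNA, module Mc (helper91): maximal candidates, windows
-/

set_option autoImplicit false

noncomputable section

open Finset Pool.Agent.Helper64.Rho
open scoped Classical Pointwise

namespace Pool.Agent.SNA

open Pool.Agent.SDG Pool.Agent.SNW Pool.Agent.SNR

section
variable {G : Type} [AddCommGroup G] [Finite G] {ι : Type}

/-- a candidate of maximal order among those of level at least `m`, with the periods over a further member -/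
theorem max_cand3 {s : Finset ι} {f : ι → G} (h0 : ∀ i ∈ s, f i ≠ 0) (hA : Aper (FS s f))
    (hG : (⊥ : AddSubgroup G) ≠ ⊤) (m : ℕ) (hm : 1 ≤ m) (hGR : GR m (⊥ : AddSubgroup G) (FS s f).card) :
    ∃ R : AddSubgroup G, Cd s f R ∧ GR m R (st (FS s f) R).card ∧ ∀ i ∈ s, f i ∉ R →
      ∃ P : AddSubgroup G, R ≤ P ∧ f i ∈ P ∧ (P = ⊤ ∨ Cd s f P) ∧
        st (FS s f) P = st (FS s f) (gen (insert i (s.filter fun k => f k ∈ R)) f) ∧
        ∃ H : AddSubgroup G, P ≤ H ∧ crk H < m ∧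
          Nat.card H * 2 ^ crk H ≤ (st (FS s f) P).card := by
  have hne : Nonempty {P : AddSubgroup G // Cd s f P ∧ GR m P (st (FS s f) P).card} :=
    ⟨⟨⊥, Cd_bot h0 hA hG, by rw [st_bot]; exact hGR⟩⟩
  obtain ⟨⟨R, hR, hRG⟩, hmax⟩ := Finite.exists_max
    (fun P : {P : AddSubgroup G // Cd s f P ∧ GR m P (st (FS s f) P).card} => Nat.card P.1)
  refine ⟨R, hR, hRG, ?_⟩
  intro i hi hiR
  obtain ⟨P, hLP, hP, hcase⟩ := Cd_exists s f _ (gen_self s f (insert i (s.filter fun k => f k ∈ R))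
    (insert_subset hi (filter_subset _ _)))
  have hsub : gen (s.filter fun k => f k ∈ R) f ≤
      gen (insert i (s.filter fun k => f k ∈ R)) f := by
    conv_lhs => unfold gen
    rw [AddSubgroup.closure_le]
    rintro _ ⟨k, hk, rfl⟩
    exact P1_mem_gen (mem_insert_of_mem (mem_coe.1 hk))
  have hiP : f i ∈ P := hLP (P1_mem_gen (mem_insert_self i _))
  have hRP : R ≤ P := by
    intro y hy
    rw [hP]
    intro x hx
    obtain ⟨a, ha, hxa⟩ := P1_mem_st.1 hx
    have h6 : a ∈ st (FS s f) (gen (s.filter fun k => f k ∈ R) f) :=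
      P1_mem_st.2 ⟨a, ha, by rw [sub_self]; exact AddSubgroup.zero_mem _⟩
    obtain ⟨b, hb, hab⟩ := P1_mem_st.1 ((hR.2 y).1 hy a h6)
    refine P1_mem_st.2 ⟨b, hb, ?_⟩
    have h7 : x + y - b = (x - a) + (a + y - b) := by abel
    rw [h7]
    exact AddSubgroup.add_mem _ hxa (hsub hab)
  have hst : st (FS s f) P =
      st (FS s f) (gen (insert i (s.filter fun k => f k ∈ R)) f) :=
    P1_st (FS s f) _ P P hLP le_rfl hP
  refine ⟨P, hRP, hiP, hcase, hst, ?_⟩
  rcases hcase with htop | hC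
  · refine ⟨⊤, le_top, by rw [crk_top]; omega, ?_⟩
    rw [crk_top, pow_zero, mul_one, AddSubgroup.card_top]
    have := Fintype.ofFinite G
    rw [Nat.card_eq_fintype_card, ← card_univ]
    refine card_le_card fun g _ => ?_
    exact P1_mem_st.2 ⟨0, zero_mem_FS s f, by rw [htop]; exact AddSubgroup.mem_top _⟩
  · by_contra hcon
    push Not at hcon
    have h8 : Nat.card P ≤ Nat.card R := hmax ⟨P, hC, fun H hPH hH => hcon H hPH hH⟩
    have h9 : R = P := by
      apply SetLike.coe_injective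
      exact Set.eq_of_subset_of_ncard_le (fun x hx => hRP hx) h8 (Set.toFinite _)
    exact hiR (h9 ▸ hiP)

/-- the rows over a member outside a candidate -/
theorem rowd {s : Finset ι} {f : ι → G} (h0 : ∀ i ∈ s, f i ≠ 0) (hA : Aper (FS s f)) (j : ℕ)
    (hj : ∀ k ∈ s, lam (FS s f) (f k) ≤ j) (R : AddSubgroup G) (hC : Cd s f R)
    {H' : Type} [AddCommGroup H'] [Finite H'] (π : G →+ H') (hπs : Function.Surjective π)
    (hπk : ∀ x, π x = 0 ↔ x ∈ R) (hπc : Nat.card G = Nat.card R * Nat.card H')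
    (i : ι) (hi : i ∈ s) (hiR : f i ∉ R) (b : ℕ)
    (hb : b ≤ ((s.filter fun k => f k ∉ R).filter fun k => π (f k) = π (f i) ∨ π (f k) = - π (f i)).card) :
    ∃ S' Y' μ : ℕ, b + 1 ≤ Y' ∧ 2 ≤ Y' ∧ Y' + 1 ≤ μ ∧
      (st (FS s f) (gen (insert i (s.filter fun k => f k ∈ R)) f)).card ≤ Nat.card R * S' ∧
      S' ≤ (FS (s.filter fun i => f i ∉ R) (fun i => π (f i))).card +
        j / (FS (s.filter fun i => f i ∈ R) f).card * (μ - Y') ∧
      S' * Y' ≤ μ * (FS (s.filter fun i => f i ∉ R) (fun i => π (f i))).card ∧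
      ∀ H : AddSubgroup G, R ≤ H → f i ∈ H →
        ∃ K' : AddSubgroup G, R ≤ K' ∧ crk K' ≤ crk H + 1 ∧ Nat.card K' * μ = Nat.card H := by
  obtain ⟨d1, d2, d3, d4, d5⟩ := Cd_data hπs hπk hC h0 hA j hj
  have hqn := q_ne s f hπk
  obtain ⟨Y, hY'⟩ : ∃ Y, Y = (FS (s.filter fun i => f i ∈ R) f).card := ⟨_, rfl⟩
  obtain ⟨N, hN'⟩ : ∃ N, N = (FS (s.filter fun i => f i ∉ R) (fun i => π (f i))).card := ⟨_, rfl⟩
  obtain ⟨y, hy'⟩ : ∃ y, y = Nat.card R := ⟨_, rfl⟩
  rw [← hY'] at d4 ⊢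
  rw [← hN', ← hy']
  have hYpos : 0 < Y := by omega
  have hy0 : 0 < y := hy' ▸ Nat.card_pos
  have hlam' : ∀ k ∈ s.filter (fun i => f i ∉ R),
      lam (FS (s.filter fun i => f i ∉ R) (fun i => π (f i))) (π (f k)) ≤ j / Y := by
    intro k hk
    rw [Nat.le_div_iff_mul_le hYpos, hY']
    exact (q_lam s f hπk (f k)).trans (hj k (mem_filter.1 hk).1)
  have hii : i ∈ s.filter fun i => f i ∉ R := mem_filter.2 ⟨hi, hiR⟩
  have hL'g : gen ((s.filter fun i => f i ∉ R).filter fun k =>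
      π (f k) ∈ AddSubgroup.zmultiples (π (f i))) (fun i => π (f i)) =
      AddSubgroup.zmultiples (π (f i)) := by
    refine le_antisymm (P1_gen_le _ _ _) ?_
    rw [AddSubgroup.zmultiples_le]
    exact P1_mem_gen (f := fun i => π (f i))
      (mem_filter.2 ⟨hii, AddSubgroup.mem_zmultiples _⟩)
  obtain ⟨hp1, hp2⟩ := all_Pc H' ι (s.filter fun i => f i ∉ R) (fun i => π (f i))
    (AddSubgroup.zmultiples (π (f i))) (j / Y) hqn d1 hL'g
    (fun k hk _ => hlam' k hk)
  obtain ⟨S', hS'⟩ : ∃ S', S' = (st (FS (s.filter fun i => f i ∉ R) (fun i => π (f i)))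
      (AddSubgroup.zmultiples (π (f i)))).card := ⟨_, rfl⟩
  -- the saturation upstairs
  have hup : (st (FS s f) (gen (insert i (s.filter fun k => f k ∈ R)) f)).card ≤ y * S' := by
    have h1 : gen (insert i (s.filter fun k => f k ∈ R)) f ≤
        (AddSubgroup.zmultiples (π (f i))).comap π := by
      unfold gen
      rw [AddSubgroup.closure_le]
      rintro _ ⟨k, hk, rfl⟩
      rw [mem_coe, mem_insert, mem_filter] at hk
      rw [SetLike.mem_coe, AddSubgroup.mem_comap]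
      rcases hk with rfl | ⟨-, hk⟩
      · exact AddSubgroup.mem_zmultiples _
      · rw [(hπk _).2 hk]
        exact AddSubgroup.zero_mem _
    rw [hS', hy']
    refine card_le_mul_card_image_of_maps_to (f := π) ?_ _ ?_
    · intro x hx
      obtain ⟨a, ha, hxa⟩ := P1_mem_st.1 hx
      refine P1_mem_st.2 ⟨π a, ?_, ?_⟩
      · rw [q_image s f hπk]
        exact mem_image_of_mem π ha
      · rw [← map_sub]
        exact h1 hxa
    · intro c _
      obtain ⟨RF, hRF, hRc⟩ := fin_exists R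
      rcases ((st (FS s f) (gen (insert i (s.filter fun k => f k ∈ R)) f)).filter
          fun x => π x = c).eq_empty_or_nonempty with he | ⟨a, ha⟩
      · rw [he, card_empty]
        exact Nat.zero_le _
      · rw [← hRc]
        refine card_le_card_of_injOn (fun x => x - a) ?_ (fun x _ z _ h => sub_left_injective h)
        intro x hx
        rw [mem_coe, hRF, ← hπk, map_sub, (mem_filter.1 hx).2, (mem_filter.1 ha).2, sub_self]
  rw [← hS', ← hN'] at hp1 hp2
  have hLb : AddSubgroup.zmultiples (π (f i)) ≠ ⊥ := by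
    intro hb
    have h1 : π (f i) ∈ AddSubgroup.zmultiples (π (f i)) := AddSubgroup.mem_zmultiples _
    rw [hb, AddSubgroup.mem_bot] at h1
    exact hqn i hii h1
  obtain ⟨Y', hY''⟩ : ∃ Y', Y' = (FS ((s.filter fun i => f i ∉ R).filter fun k =>
      π (f k) ∈ AddSubgroup.zmultiples (π (f i))) (fun i => π (f i))).card := ⟨_, rfl⟩
  have hsub' : ((s.filter fun i => f i ∉ R).filter fun k =>
      π (f k) ∈ AddSubgroup.zmultiples (π (f i))) ⊆ s.filter fun i => f i ∉ R :=
    filter_subset _ _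
  have hA' := (all_Ba1 H' ι (fun i => π (f i))).2.1 _ _ hsub' d1
  have h7 := (all_Sm H' ι _ (fun i => π (f i)) (fun k hk => hqn k (hsub' hk)) hA').1
  have hYb : b + 1 ≤ Y' := by
    have h8 : b ≤ ((s.filter fun i => f i ∉ R).filter fun k =>
        π (f k) ∈ AddSubgroup.zmultiples (π (f i))).card := by
      refine hb.trans (card_le_card fun k hk => ?_)
      obtain ⟨hk1, hk2⟩ := mem_filter.1 hk
      refine mem_filter.2 ⟨hk1, ?_⟩
      rcases hk2 with hk2 | hk2
      · rw [hk2]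
        exact AddSubgroup.mem_zmultiples _
      · rw [hk2]
        exact AddSubgroup.neg_mem _ (AddSubgroup.mem_zmultiples _)
    rw [hY'']
    omega
  have hY2 : 2 ≤ Y' := by
    have h8 : 1 ≤ ((s.filter fun i => f i ∉ R).filter fun k =>
      π (f k) ∈ AddSubgroup.zmultiples (π (f i))).card :=
      card_pos.2 ⟨i, mem_filter.2 ⟨hii, AddSubgroup.mem_zmultiples _⟩⟩
    rw [hY'']
    omega
  have hY3 : Y' + 1 ≤ Nat.card (AddSubgroup.zmultiples (π (f i))) := by
    rw [hY'']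
    exact (all_Kn H').2.2.2 _ _ ⟨0, zero_mem_FS _ _⟩ hLb
      (fun x hx => FS_subset_of_mem (fun k hk => (mem_filter.1 hk).2) hx) hA'
  rw [← hY''] at hp1 hp2
  obtain ⟨μ, hμ⟩ : ∃ μ, μ = Nat.card (AddSubgroup.zmultiples (π (f i))) := ⟨_, rfl⟩
  rw [← hμ] at hp1 hp2 hY3
  refine ⟨S', Y', μ, hYb, hY2, hY3, hup, hp1, hp2, ?_⟩
  -- exchange
  intro H hRH hiH
  obtain ⟨K', hRK, -, hcard, w, hw⟩ := exchange R H (f i) hRH hiH
  have hsup : R ⊔ AddSubgroup.zmultiples (f i) = (AddSubgroup.zmultiples (π (f i))).comap π := by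
    apply le_antisymm
    · apply sup_le
      · intro x hx
        rw [AddSubgroup.mem_comap, (hπk x).2 hx]
        exact AddSubgroup.zero_mem _
      · rw [AddSubgroup.zmultiples_le, AddSubgroup.mem_comap]
        exact AddSubgroup.mem_zmultiples _
    · intro x hx
      rw [AddSubgroup.mem_comap, AddSubgroup.mem_zmultiples_iff] at hx
      obtain ⟨k, hk⟩ := hx
      have h1 : x - k • f i ∈ R := by
        rw [← hπk, map_sub, map_zsmul, hk, sub_self]
      have h2 : x = (x - k • f i) + k • f i := by abel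
      rw [h2]
      exact AddSubgroup.add_mem_sup h1 (AddSubgroup.zsmul_mem_zmultiples _ k)
  rw [hsup, card_comap R π hπs hπc, ← hμ, ← hy'] at hcard
  refine ⟨K', hRK, ?_, ?_⟩
  · rw [hw]
    exact crk_sup_le K' w
  · have h1 : y * (Nat.card K' * μ) = y * Nat.card H := by
      calc y * (Nat.card K' * μ) = Nat.card K' * (y * μ) := by ring
        _ = Nat.card H * y := hcard
        _ = y * Nat.card H := by ring
    exact Nat.eq_of_mul_eq_mul_left hy0 h1

/-- the inequality for a class with `b` members -/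
theorem D_b (X N Y y j S' Y' μ b H2 K2 c : ℕ) (hb : b + 1 ≤ Y') (hμ : Y' + 1 ≤ μ)
    (hK : K2 * μ = H2) (hX : X < K2 * 2 ^ (c + 1)) (hst : H2 * 2 ^ c ≤ y * S')
    (hS : S' ≤ N + j / Y * (μ - Y')) (hc : y * N ≤ X + j * (y - Y)) :
    (μ - 2) * X < 2 * (j * (y - Y)) + 2 * (y * (j / Y) * (μ - (b + 1))) := by
  have h6 : μ * X < μ * (K2 * 2 ^ (c + 1)) := Nat.mul_lt_mul_of_pos_left hX (by omega)
  have h7 : μ * (K2 * 2 ^ (c + 1)) = 2 * (H2 * 2 ^ c) := by
    rw [← hK]
    ring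
  have h8 : μ * X < 2 * (y * S') := by omega
  obtain ⟨ν, rfl⟩ : ∃ ν, μ = ν + 2 := ⟨μ - 2, by omega⟩
  rw [Nat.add_sub_cancel]
  have h9 : S' ≤ N + j / Y * (ν + 2 - (b + 1)) :=
    hS.trans (Nat.add_le_add_left (Nat.mul_le_mul_left _ (by omega)) _)
  have h10 : y * S' ≤ y * N + y * (j / Y) * (ν + 2 - (b + 1)) := by
    calc y * S' ≤ y * (N + j / Y * (ν + 2 - (b + 1))) := Nat.mul_le_mul_left _ h9
      _ = _ := by ring
  have h11 : (ν + 2) * X = ν * X + 2 * X := by ring
  omega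

/-- the windows over a member outside the maximal candidate -/
theorem M_win (N y S' Y' μ H2 K2 c c' : ℕ) (h2 : 2 ≤ Y') (hμ : Y' + 1 ≤ μ) (hc : c' ≤ c + 1)
    (hK : K2 * μ = H2) (hN : y * N < K2 * 2 ^ c') (hst : H2 * 2 ^ c ≤ y * S')
    (hS : S' * Y' ≤ μ * N) : False := by
  have h1 : S' * 2 ≤ μ * N := (Nat.mul_le_mul_left _ h2).trans hS
  have h3 : y * (S' * 2) ≤ y * (μ * N) := Nat.mul_le_mul_left _ h1
  have h4 : μ * (y * N) < μ * (K2 * 2 ^ c') := Nat.mul_lt_mul_of_pos_left hN (by omega)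
  have h5 : μ * (K2 * 2 ^ c') ≤ 2 * (H2 * 2 ^ c) := by
    rw [← hK]
    calc μ * (K2 * 2 ^ c') ≤ μ * (K2 * 2 ^ (c + 1)) :=
          Nat.mul_le_mul_left _ (Nat.mul_le_mul_left _ (Nat.pow_le_pow_right (by norm_num) hc))
      _ = _ := by ring
  have h6 : y * (S' * 2) = 2 * (y * S') := by ring
  have h7 : y * (μ * N) = μ * (y * N) := by ring
  omega

/-- an element whose order is the index of a subgroup with cyclic quotient -/
theorem ord_elt {H : Type} [AddCommGroup H] [Finite H] (L : AddSubgroup H) (v : H)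
    (hv : L ⊔ AddSubgroup.zmultiples v = ⊤) :
    ∃ w : H, Nat.card L * addOrderOf w = Nat.card H := by
  have h1 : AddSubgroup.zmultiples (QuotientAddGroup.mk' L v) = ⊤ := by
    have h2 : (L ⊔ AddSubgroup.zmultiples v).map (QuotientAddGroup.mk' L) = ⊤ := by
      rw [hv]
      exact AddSubgroup.map_top_of_surjective _ (QuotientAddGroup.mk'_surjective L)
    rw [AddSubgroup.map_sup, QuotientAddGroup.map_mk'_self, bot_sup_eq, AddMonoidHom.map_zmultiples] at h2
    exact h2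
  have h2 : addOrderOf (QuotientAddGroup.mk' L v) = Nat.card (H ⧸ L) := by
    rw [← Nat.card_zmultiples, h1, AddSubgroup.card_top]
  have h3 : addOrderOf (QuotientAddGroup.mk' L v) ∣ addOrderOf v :=
    addOrderOf_map_dvd (QuotientAddGroup.mk' L) v
  obtain ⟨c, hc⟩ := h3
  have hpos : 0 < addOrderOf v := addOrderOf_pos v
  have hc0 : c ≠ 0 := by
    rintro rfl
    omega
  refine ⟨c • v, ?_⟩
  rw [addOrderOf_nsmul_of_dvd hc0 ⟨_, by rw [hc, mul_comm]⟩, hc, Nat.mul_div_cancel _ (Nat.pos_of_ne_zero hc0),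
    h2, mul_comm]
  exact (AddSubgroup.card_eq_card_quotient_mul_card_addSubgroup L).symm

/-- the members in the periods over a further member -/
theorem M_inner {s : Finset ι} {f : ι → G} (h0 : ∀ i ∈ s, f i ≠ 0) (hA : Aper (FS s f)) (m : ℕ)
    (hGR : GR (m + 1) (⊥ : AddSubgroup G) (FS s f).card) (P : AddSubgroup G) (hC : Cd s f P)
    (H : AddSubgroup G) (hPH : P ≤ H) (hH : crk H < m)
    (hst : Nat.card H * 2 ^ crk H ≤ (st (FS s f) P).card) :
    ∃ (H1 : Type) (_ : AddCommGroup H1) (_ : Finite H1) (φ : H1 →+ G) (f1 : ι → H1),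
      Function.Injective φ ∧ (∀ i ∈ s.filter (fun i => f i ∈ P), φ (f1 i) = f i) ∧
      (FS (s.filter fun i => f i ∈ P) f1).card = (FS (s.filter fun i => f i ∈ P) f).card ∧
      gen (s.filter fun i => f i ∈ P) f1 = ⊤ ∧
      GR 2 (⊥ : AddSubgroup H1) (FS (s.filter fun i => f i ∈ P) f1).card := by
  obtain ⟨j, hj⟩ : ∃ j, ∀ k ∈ s, lam (FS s f) (f k) ≤ j :=
    ⟨∑ k ∈ s, lam (FS s f) (f k), fun k hk =>
      single_le_sum (f := fun k => lam (FS s f) (f k)) (fun _ _ => Nat.zero_le _) hk⟩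
  have hfil : (s.filter fun i => f i ∈ gen (s.filter fun i => f i ∈ P) f) =
      s.filter fun i => f i ∈ P := P1_filter s f P
  have hLgen : gen (s.filter fun i => f i ∈ gen (s.filter fun i => f i ∈ P) f) f =
      gen (s.filter fun i => f i ∈ P) f := by rw [hfil]
  obtain ⟨-, hP2⟩ := all_Pc G ι s f (gen (s.filter fun i => f i ∈ P) f) j h0 hA hLgen
    (fun i hi _ => hj i hi)
  rw [hfil, ← Cd_st hC] at hP2
  obtain ⟨H1, _, _, φ, f1, hφ, hr, hf1, hc, hg1⟩ := res (s.filter fun i => f i ∈ P) f _ rfl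
  refine ⟨H1, inferInstance, inferInstance, φ, f1, hφ, hf1, hc, hg1, ?_⟩
  have hM : Nat.card (gen (s.filter fun i => f i ∈ P) f) = Nat.card H1 := by
    rw [← hr, AddMonoidHom.range_eq_map, AddSubgroup.card_map_of_injective hφ, AddSubgroup.card_top]
  rw [hM, ← hc] at hP2
  have hMP : gen (s.filter fun i => f i ∈ P) f ≤ P := P1_gen_le s f P
  intro L _ hL
  by_contra hcon
  push Not at hcon
  obtain ⟨X, hX⟩ : ∃ X, X = (FS s f).card := ⟨_, rfl⟩
  obtain ⟨V, hV⟩ : ∃ V, V = (FS (s.filter fun i => f i ∈ P) f1).card := ⟨_, rfl⟩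
  obtain ⟨A, hAd⟩ : ∃ A, A = (st (FS s f) P).card := ⟨_, rfl⟩
  rw [← hV, ← hX, ← hAd] at hP2
  rw [← hV] at hcon
  rw [← hAd] at hst
  rw [← hX] at hGR
  have hpos : 0 < Nat.card H1 := Nat.card_pos
  have h1 : Nat.card H * 2 ^ crk H * (Nat.card L * 2 ^ crk L) ≤ Nat.card H1 * X :=
    (Nat.mul_le_mul hst hcon).trans hP2
  rcases Nat.lt_or_ge (crk L) 1 with h2 | h2
  · have h3 : L = ⊤ := by
      by_contra h4
      have := crk_pos h4
      omega
    have h4 : crk L = 0 := by omega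
    rw [h4, pow_zero, mul_one, h3, AddSubgroup.card_top] at h1
    have h5 := hGR H bot_le (by omega)
    have h6 : Nat.card H1 * X < Nat.card H1 * (Nat.card H * 2 ^ crk H) :=
      Nat.mul_lt_mul_of_pos_left h5 hpos
    rw [mul_comm (Nat.card H * 2 ^ crk H)] at h1
    omega
  · have h3 : crk L = 1 := by omega
    obtain ⟨S, hS, hg⟩ := exists_crk L
    rw [h3] at hS
    obtain ⟨v, rfl⟩ := Finset.card_eq_one.1 hS
    rw [coe_singleton, ← AddSubgroup.zmultiples_eq_closure] at hg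
    obtain ⟨w, hw⟩ := ord_elt L v hg
    have hwH : φ w ∈ H := by
      apply hPH
      apply hMP
      rw [← hr]
      exact ⟨w, rfl⟩
    obtain ⟨K', -, -, hcard, z, hz⟩ := exchange (⊥ : AddSubgroup G) H (φ w) bot_le hwH
    rw [bot_sup_eq, AddSubgroup.card_bot, mul_one, Nat.card_zmultiples,
      addOrderOf_injective φ hφ] at hcard
    have h4 : crk K' ≤ crk H + 1 := by
      rw [hz]
      exact crk_sup_le K' z
    have h5 := hGR K' bot_le (by omega)
    have h6 : X < Nat.card K' * 2 ^ (crk H + 1) := by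
      refine lt_of_lt_of_le h5 (Nat.mul_le_mul_left _ (Nat.pow_le_pow_right (by norm_num) h4))
    have h7 : Nat.card H1 * X < Nat.card H1 * (Nat.card K' * 2 ^ (crk H + 1)) :=
      Nat.mul_lt_mul_of_pos_left h6 hpos
    have h8 : Nat.card H1 * (Nat.card K' * 2 ^ (crk H + 1)) =
        Nat.card H * 2 ^ crk H * (Nat.card L * 2 ^ crk L) := by
      rw [← hw, ← hcard, h3]
      ring
    omega

end

end Pool.Agent.SNA
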