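import Pool.Agent.SNR.Sg
import Pool.Agent.SNA.Mc
import Pool.Agent.SNT.All
import Pool.Agent.SSX.Main

/-!
# SNA, module Al (helper91): families with cap 2 at all levels `m ≥ 2`, all finite abelian groups

`thm_A`: `T` the set of sums of a generating family of `t` nonzero elements, at most two of them equal to `± x`, `T`
aperiodic and of level `m + 1` (`GR (m + 1)`): `2 ^ (m - 1) PQ (ee m) (t - m) ≤ 2 |T|`.
-/

set_option autoImplicit false

noncomputable section

open Finset Pool.Agent.Helper64.Rho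
open scoped Classical Pointwise

namespace Pool.Agent.SNA

open Pool.Agent.SDG Pool.Agent.SNW Pool.Agent.SNR

section
variable {G : Type} [AddCommGroup G] [Finite G] {ι : Type}

/-- the numbers of a maximal candidate of level `m` -/
theorem setup3 {s : Finset ι} {f : ι → G} (h0 : ∀ i ∈ s, f i ≠ 0) (hA : Aper (FS s f))
    (hg : gen s f = ⊤) (hge : ∀ i ∈ s, gen (s.erase i) f = ⊤) (hbt : (⊥ : AddSubgroup G) ≠ ⊤)
    (m j : ℕ) (hm : 1 ≤ m) (hj : ∀ k ∈ s, lam (FS s f) (f k) ≤ j)
    (hGR : GR (m + 1) (⊥ : AddSubgroup G) (FS s f).card) :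
    ∃ (R : AddSubgroup G) (H' : Type) (_ : AddCommGroup H') (_ : Finite H') (π : G →+ H'),
      Function.Surjective π ∧ (∀ x, π x = 0 ↔ x ∈ R) ∧ Nat.card G = Nat.card R * Nat.card H' ∧
      R ≠ ⊤ ∧ Cd s f R ∧ GR m R (st (FS s f) R).card ∧
      (∀ i ∈ s.filter (fun i => f i ∉ R), π (f i) ≠ 0) ∧
      Aper (FS (s.filter fun i => f i ∉ R) (fun i => π (f i))) ∧
      gen (s.filter fun i => f i ∉ R) (fun i => π (f i)) = ⊤ ∧
      GR m (⊥ : AddSubgroup H') (FS (s.filter fun i => f i ∉ R) (fun i => π (f i))).card ∧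
      m ≤ crk R ∧ crk R ≤ crk (⊥ : AddSubgroup H') ∧
      Nat.card R * (FS (s.filter fun i => f i ∉ R) (fun i => π (f i))).card ≤
        (FS s f).card + j * (Nat.card R - (FS (s.filter fun i => f i ∈ R) f).card) ∧
      (FS (s.filter fun i => f i ∉ R) (fun i => π (f i))).card *
        (FS (s.filter fun i => f i ∈ R) f).card ≤ (FS s f).card ∧
      1 ≤ (s.filter fun i => f i ∈ R).card ∧
      (FS (s.filter fun i => f i ∈ R) f).card + 1 ≤ Nat.card R ∧
      (s.filter fun i => f i ∉ R).card + (s.filter fun i => f i ∈ R).card = s.card ∧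
      crk R + 1 ≤ (s.filter fun i => f i ∉ R).card ∧
      (crk R ≤ m → (FS s f).card < Nat.card R * 2 ^ m) ∧
      ∀ i ∈ s, f i ∉ R →
        ∃ P : AddSubgroup G, R ≤ P ∧ f i ∈ P ∧ (P = ⊤ ∨ Cd s f P) ∧
          st (FS s f) P = st (FS s f) (gen (insert i (s.filter fun k => f k ∈ R)) f) ∧
          ∃ H : AddSubgroup G, P ≤ H ∧ crk H < m ∧
            Nat.card H * 2 ^ crk H ≤ (st (FS s f) P).card := by
  obtain ⟨R, hC, hRG, hR⟩ := max_cand3 h0 hA hbt m hm (GR_mono (Nat.le_succ m) le_rfl hGR)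
  obtain ⟨H', _, _, π, hπs, hπk, hπc⟩ := q_exists G R
  obtain ⟨d1, d2, d3, d4, d5⟩ := Cd_data hπs hπk hC h0 hA j hj
  have he := crk_nodrop hC.1 hge hg
  have hbot : R ≠ ⊥ := by
    rintro rfl
    obtain ⟨i, hi⟩ : (s.filter fun i => f i ∉ (⊥ : AddSubgroup G)).Nonempty := by
      rw [← card_pos]
      omega
    obtain ⟨his, hiR⟩ := mem_filter.1 hi
    obtain ⟨P, hRP, hiP, -, hPL, H, hPH, hH, hst⟩ := hR i his hiR
    rw [hPL] at hst
    have h2 : (s.filter fun k => f k ∈ (⊥ : AddSubgroup G)) = ∅ := by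
      rw [Finset.filter_eq_empty_iff]
      intro k hk h
      exact h0 k hk ((AddSubgroup.mem_bot).1 h)
    rw [h2] at hst
    have h6 : gen (insert i ∅) f = AddSubgroup.zmultiples (f i) := by
      apply le_antisymm
      · unfold gen
        rw [AddSubgroup.closure_le]
        rintro _ ⟨k, hk, rfl⟩
        rw [mem_coe, mem_insert] at hk
        rcases hk with rfl | hk
        · exact AddSubgroup.mem_zmultiples _
        · exact absurd hk (notMem_empty _)
      · rw [AddSubgroup.zmultiples_le]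
        exact P1_mem_gen (mem_insert_self i ∅)
    rw [h6] at hst
    exact bot_level h0 hA m hGR i his H (hPH hiP) hH hst
  obtain ⟨d6, d7⟩ := d5 hbot
  have hmR : m ≤ crk R := by
    by_contra hcon
    have h1 := hRG R le_rfl (by omega)
    have := Fintype.ofFinite G
    have h2 := pow_crk_le R s f (by
      rw [eq_top_iff, ← hg]
      unfold gen
      exact le_sup_right)
    rw [← st_sat] at h2
    omega
  refine ⟨R, H', inferInstance, inferInstance, π, hπs, hπk, hπc, hC.1, hC, hRG, q_ne s f hπk, d1,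
    q_gen s f hπs hπk hg, ?_, hmR, crk_quot R π hπs hπk, d2, d3, d6, d7, ?_, he, ?_, hR⟩
  · apply GR_quot R π hπs hπk hπc
    rw [q_card s f hπk]
    exact hRG
  · rw [add_comm]
    exact Finset.card_filter_add_card_filter_not (s := s) (fun i => f i ∈ R)
  · intro h1
    have h2 : crk R = m := by omega
    have h3 := hGR R bot_le (by omega)
    rwa [h2] at h3

omit [Finite G] in
/-- a largest class -/
theorem best_class (s : Finset ι) (f : ι → G) (hcap : ¬ Cap 2 s f) :
    ∃ i ∈ s, 3 ≤ (s.filter fun k => f k = f i ∨ f k = - f i).card ∧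
      Cap (s.filter fun k => f k = f i ∨ f k = - f i).card s f := by
  have h1 : ∃ x, 3 ≤ (s.filter fun k => f k = x ∨ f k = - x).card := by
    by_contra hcon
    push Not at hcon
    exact hcap fun x => by
      have := hcon x
      omega
  obtain ⟨x, hx⟩ := h1
  have hcl : ∀ x : G, ∀ i ∈ s.filter (fun k => f k = x ∨ f k = - x),
      (s.filter fun k => f k = x ∨ f k = - x) = s.filter fun k => f k = f i ∨ f k = - f i := by
    intro x i hi
    apply filter_congr
    intro k _
    rcases (mem_filter.1 hi).2 with h | h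
    · rw [h]
    · rw [h, neg_neg]
      exact or_comm
  obtain ⟨i0, hi0⟩ : (s.filter fun k => f k = x ∨ f k = - x).Nonempty := by
    rw [← card_pos]
    omega
  have hs : s.Nonempty := ⟨i0, (mem_filter.1 hi0).1⟩
  obtain ⟨i, hi, hmax⟩ := exists_max_image s
    (fun i => (s.filter fun k => f k = f i ∨ f k = - f i).card) hs
  refine ⟨i, hi, ?_, ?_⟩
  · have h2 := hmax i0 (mem_filter.1 hi0).1
    rw [← hcl x i0 hi0] at h2
    exact hx.trans h2
  · intro z
    rcases (s.filter fun k => f k = z ∨ f k = - z).eq_empty_or_nonempty with he | ⟨k, hk⟩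
    · rw [he, card_empty]
      exact Nat.zero_le _
    · rw [hcl z k hk]
      exact hmax k (mem_filter.1 hk).1

omit [Finite G] in
theorem cap_res {H : Type} [AddCommGroup H] (φ : H →+ G) (s : Finset ι) (f : ι → G) (f1 : ι → H)
    (hf : ∀ i ∈ s, φ (f1 i) = f i) (g : ℕ) (hc : Cap g s f) : Cap g s f1 := by
  intro x
  refine (card_le_card ?_).trans (hc (φ x))
  intro i hi
  obtain ⟨h1, h2⟩ := mem_filter.1 hi
  refine mem_filter.2 ⟨h1, ?_⟩
  rw [← hf i h1]
  rcases h2 with h2 | h2
  · left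
    rw [h2]
  · right
    rw [h2, map_neg]

/-- level two, the quotient is cyclic -/
theorem caseI2 (x j : ℕ) (s : Finset ι) (f : ι → G) (hs : s.card = x + 1) (hx : 3 ≤ x)
    (h0 : ∀ i ∈ s, f i ≠ 0) (hcap : Cap 2 s f) (hA : Aper (FS s f))
    (hX : 2 * (FS s f).card < PQ 1 x) (hj2 : 2 * j + PQ 1 (x - 1) ≤ 2 * (FS s f).card)
    (hj : ∀ k ∈ s, lam (FS s f) (f k) ≤ j) (R : AddSubgroup G)
    {H' : Type} [AddCommGroup H'] [Finite H'] (π : G →+ H') (hπs : Function.Surjective π)
    (hπk : ∀ x, π x = 0 ↔ x ∈ R) (hC : Cd s f R) (hcr : crk R ≤ 1)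
    (hXy : (FS s f).card < Nat.card R * 2 ^ 1)
    (hk1 : 1 ≤ (s.filter fun i => f i ∈ R).card)
    (he2 : 2 ≤ (s.filter fun i => f i ∉ R).card)
    (hek : (s.filter fun i => f i ∉ R).card + (s.filter fun i => f i ∈ R).card = s.card)
    (hY : cf 2 (s.filter fun i => f i ∈ R).card ≤ (FS (s.filter fun i => f i ∈ R) f).card) : False := by
  obtain ⟨d1, -⟩ := Cd_data hπs hπk hC h0 hA j hj
  have hqn := q_ne s f hπk
  have hSm := (all_Sm H' ι (s.filter fun i => f i ∉ R) (fun i => π (f i)) hqn d1).1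
  obtain ⟨L, hLd⟩ : ∃ L, L = gen (s.filter fun i => f i ∈ R) f := ⟨_, rfl⟩
  have hLR : L ≤ R := hLd ▸ P1_gen_le s f R
  have hfil : (s.filter fun i => f i ∈ L) = s.filter fun i => f i ∈ R := by
    rw [hLd]
    exact P1_filter s f R
  by_cases hLe : L = R
  · -- every row is incomplete
    have hgen : gen (MDR.ins s f R) f = R := by
      unfold MDR.ins
      rw [← hLd, hLe]
    have hcyc : IsAddCyclic (G ⧸ R) := by
      obtain ⟨S, hS, hg⟩ := exists_crk R
      have h1 : ∃ v : G, R ⊔ AddSubgroup.zmultiples v = ⊤ := by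
        rcases Nat.lt_or_ge S.card 1 with h2 | h2
        · have h3 : S = ∅ := by
            rw [← Finset.card_eq_zero]
            omega
          refine ⟨0, ?_⟩
          rw [h3, coe_empty, AddSubgroup.closure_empty] at hg
          rw [AddSubgroup.zmultiples_zero_eq_bot]
          exact hg
        · obtain ⟨v, rfl⟩ := Finset.card_eq_one.1 (by omega : S.card = 1)
          refine ⟨v, ?_⟩
          rw [coe_singleton, ← AddSubgroup.zmultiples_eq_closure] at hg
          exact hg
      obtain ⟨v, hv⟩ := h1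
      apply cyc_of_le (QuotientAddGroup.mk' R v)
      have h2 : (R ⊔ AddSubgroup.zmultiples v).map (QuotientAddGroup.mk' R) = ⊤ := by
        rw [hv]
        exact AddSubgroup.map_top_of_surjective _ (QuotientAddGroup.mk'_surjective R)
      rw [AddSubgroup.map_sup, QuotientAddGroup.map_mk'_self, bot_sup_eq,
        AddMonoidHom.map_zmultiples] at h2
      rw [h2]
    have hAq : Aper (FS (MDR.outs s f R) (SNT.bar f R)) := by
      obtain ⟨d1', -⟩ := Cd_data (QuotientAddGroup.mk'_surjective R)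
        (fun x => QuotientAddGroup.eq_zero_iff x) hC h0 hA j hj
      have hD : ∀ D1 D2 : DecidableEq (G ⧸ R),
          Aper (@FS ι (G ⧸ R) _ D1 (s.filter fun i => f i ∉ R) fun i => QuotientAddGroup.mk' R (f i)) →
          Aper (@FS ι (G ⧸ R) _ D2 (s.filter fun i => f i ∉ R) fun i => QuotientAddGroup.mk' R (f i)) :=
        fun D1 D2 h => by rwa [Subsingleton.elim D2 D1]
      exact hD _ _ d1'
    have hcard : (SNT.qs (FS s f) R).card =
        (FS (s.filter fun i => f i ∉ R) (fun i => π (f i))).card := by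
      have h1 := q_card s f (π := QuotientAddGroup.mk' R) (P := R)
        (fun x => QuotientAddGroup.eq_zero_iff x)
      have h2 := q_card s f hπk
      have h3 : (SNT.qs (FS s f) R) =
          FS (s.filter fun i => f i ∉ R) (fun i => QuotientAddGroup.mk' R (f i)) :=
        ((SNT.all_Rs G ι s f R).2.2.2).symm
      rw [h3]
      have h4 : 0 < Nat.card R := Nat.card_pos
      have hD : ∀ D1 D2 : DecidableEq (G ⧸ R),
          (@FS ι (G ⧸ R) _ D1 (s.filter fun i => f i ∉ R) fun i => QuotientAddGroup.mk' R (f i)).card =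
          (@FS ι (G ⧸ R) _ D2 (s.filter fun i => f i ∉ R) fun i => QuotientAddGroup.mk' R (f i)).card :=
        fun D1 D2 => by rw [Subsingleton.elim D2 D1]
      exact (hD _ _).trans (Nat.eq_of_mul_eq_mul_left h4 (h1.trans h2.symm))
    have hprt : ∀ c ∈ SNT.qs (FS s f) R, SNT.Prt (FS s f) R c := by
      intro c _
      obtain ⟨x0, rfl⟩ := QuotientAddGroup.mk_surjective c
      by_contra hcon
      unfold SNT.Prt at hcon
      push Not at hcon
      obtain ⟨i, hi⟩ : (s.filter fun i => f i ∉ R).Nonempty := by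
        rw [← card_pos]
        omega
      obtain ⟨his, hiR⟩ := mem_filter.1 hi
      have h1 : f i + f i ∉ R := by
        intro h2
        apply (all_Ba1 H' ι (fun i => π (f i))).2.2.2.2.1 _ i hi d1 (hqn i hi)
        have h3 : π (f i) + π (f i) = 0 := by
          rw [← map_add]
          exact (hπk _).2 h2
        exact eq_neg_of_add_eq_zero_left h3
      have h2 := (SNT.all_Nf G ι s f R i x0 his hiR h1 (by
        intro g hg
        apply hcon
        rw [QuotientAddGroup.mk_add, (QuotientAddGroup.eq_zero_iff g).2 hg, add_zero])).2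
      omega
    have h1 := SNT.all_T1 G ι s f R j (fun ι s f h0 hc ha => SSX.PAG_all G ι s f h0 hc ha) h0 hcap hA hgen
      hcyc hAq he2 hprt hj
    have e1 : ∀ t, SNT.pq t = pn t := fun t => rfl
    have e2 := PQ_pn x
    have e3 := PQ_pn (x - 1)
    have e4 : x - 1 + 1 = x := by omega
    rw [e4] at e3
    rw [e1, e1, hs, Nat.add_sub_cancel] at h1
    have h2 := h1 (by omega)
    omega
  · have h6 : 2 * Nat.card L ≤ Nat.card R := by
      obtain ⟨c, hc⟩ := AddSubgroup.card_dvd_of_le hLR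
      have h7 : 0 < Nat.card L := Nat.card_pos
      have h8 : c ≠ 1 := by
        rintro rfl
        rw [mul_one] at hc
        apply hLe
        apply SetLike.coe_injective
        exact Set.eq_of_subset_of_ncard_le (fun x hx => hLR hx) hc.le (Set.toFinite _)
      have h9 : c ≠ 0 := by
        rintro rfl
        have : 0 < Nat.card R := Nat.card_pos
        omega
      rw [hc, mul_comm]
      exact Nat.mul_le_mul_left _ (by omega)
    obtain ⟨h7, h8⟩ := all_Pc G ι s f L _ h0 hA (by rw [hfil]; exact hLd.symm)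
      (fun i hi _ => hj i hi)
    rw [hfil, hLd, ← Cd_st hC, ← q_card s f hπk, ← hLd] at h7 h8
    obtain ⟨y, hy⟩ : ∃ y, y = Nat.card R := ⟨_, rfl⟩
    obtain ⟨l, hl⟩ : ∃ l, l = Nat.card L := ⟨_, rfl⟩
    obtain ⟨Y, hYd⟩ : ∃ Y, Y = (FS (s.filter fun i => f i ∈ R) f).card := ⟨_, rfl⟩
    obtain ⟨N, hN⟩ : ∃ N, N = (FS (s.filter fun i => f i ∉ R) (fun i => π (f i))).card := ⟨_, rfl⟩
    obtain ⟨X, hXd⟩ : ∃ X, X = (FS s f).card := ⟨_, rfl⟩
    rw [← hy, ← hN, ← hXd, ← hl, ← hYd] at h7 h8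
    rw [← hl, ← hy] at h6
    rw [← hXd, ← hy, pow_one] at hXy
    rw [← hN] at hSm
    rw [← hXd] at hX hj2
    rw [← hYd] at hY
    have hy0 : 0 < y := hy ▸ Nat.card_pos
    refine I2_num x _ _ X j N Y hx he2 hk1 (by omega) hX hj2 hSm ?_ hY ?_
    · have h9 : j * (l - Y) ≤ j * l := Nat.mul_le_mul_left _ (Nat.sub_le _ _)
      have h10 : j * (2 * l) ≤ j * y := Nat.mul_le_mul_left _ h6
      have h11 : y * (2 * N) < y * (4 + j) := by nlinarith
      exact Nat.lt_of_mul_lt_mul_left h11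
    · have h9 : 2 * l * X ≤ y * X := Nat.mul_le_mul_right _ h6
      have h10 : y * (2 * (N * Y)) ≤ y * X := by nlinarith
      exact Nat.le_of_mul_le_mul_left h10 hy0

end

/-- `1` for the level two, `0` for the levels at least three -/
def ee (m : ℕ) : ℕ := if m = 1 then 1 else 0

theorem ee_le (m : ℕ) : ee m ≤ 1 := by
  unfold ee
  split_ifs <;> omega

/-- the statement for `t` members and level `m + 1` -/
def StA (t m : ℕ) : Prop :=
  ∀ (G ι : Type) [AddCommGroup G] [Finite G] (s : Finset ι) (f : ι → G), s.card = t →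
    (∀ i ∈ s, f i ≠ 0) → Cap 2 s f → Aper (FS s f) → gen s f = ⊤ →
      GR (m + 1) (⊥ : AddSubgroup G) (FS s f).card → 2 ^ (m - 1) * PQ (ee m) (t - m) ≤ 2 * (FS s f).card

theorem thm_StA (t : ℕ) : ∀ m, 1 ≤ m → StA t m := by
  induction t using Nat.strong_induction_on with
  | _ t ih =>
  intro m hm G ι _ _ s f hs h0 hcap hA hg hGR
  have hr := GR_rank s f hg hGR
  have hrt := crk_bot_le s f hg
  rw [hs] at hrt
  obtain ⟨u, hu⟩ : ∃ u, u = 2 ^ (m - 1) := ⟨_, rfl⟩
  have hu1 : 1 ≤ u := hu ▸ Nat.one_le_two_pow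
  have p1 : 2 ^ m = 2 * u := by
    obtain ⟨M, rfl⟩ : ∃ M, m = M + 1 := ⟨m - 1, by omega⟩
    rw [hu, Nat.add_sub_cancel, pow_succ]
    ring
  rw [← hu]
  obtain ⟨x, hx⟩ : ∃ x, x = t - m := ⟨_, rfl⟩
  rw [← hx]
  have hSI := thm_SIm (m + 1) (by omega) G ι s f h0 hA hg hGR
  rw [Nat.add_sub_cancel, p1, hs] at hSI
  have e1 : t + 2 - (m + 1) = x + 1 := by omega
  rw [e1] at hSI
  rcases Nat.lt_or_ge x 3 with hx3 | hx3
  · have : x = 1 ∨ x = 2 := by omega
    rcases this with h | h
    · have h2 : PQ (ee m) 1 = 8 := by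
        rw [PQ_PZ, PZ, if_neg (by omega), if_neg (by omega), if_neg (by omega)]
        rfl
      rw [h] at hSI ⊢
      rw [h2]
      omega
    · have h2 : PQ (ee m) 2 = 12 := by
        rw [PQ_PZ, PZ, if_neg (by omega), if_neg (by omega), if_neg (by omega)]
        rfl
      rw [h] at hSI ⊢
      rw [h2]
      omega
  -- drops
  by_cases hdrop : ∃ i ∈ s, f i ∉ gen (s.erase i) f
  · obtain ⟨i, hi, hd⟩ := hdrop
    have h2 : (FS s f).card = 2 * (FS (s.erase i) f).card := (all_Ba1 G ι f).2.2.2.1 s i hi hd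
    have ht : (s.erase i).card = t - 1 := by rw [card_erase_of_mem hi, hs]
    have hAe := (all_Ba1 G ι f).2.1 s (s.erase i) (erase_subset _ _) hA
    have h0e : ∀ k ∈ s.erase i, f k ≠ 0 := fun k hk => h0 k (erase_subset _ _ hk)
    have hce : Cap 2 (s.erase i) f := fun x =>
      (card_le_card (filter_subset_filter _ (erase_subset _ _))).trans (hcap x)
    rcases Nat.lt_or_ge m 2 with hm1 | hm2
    · obtain rfl : m = 1 := by omega
      have h3 := SSX.PAG_all G ι (s.erase i) f h0e hce hAe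
      have h4 := PQ_le (ee 1) x (ee_le 1)
      have h5 : u = 1 := by rw [hu]; rfl
      rw [ht, ← hx] at h3
      rw [h5, one_mul]
      omega
    · obtain ⟨M, rfl⟩ : ∃ M, m = M + 2 := ⟨m - 2, by omega⟩
      obtain ⟨H, _, _, φ, f1, hφ, hf1, hc, hg1, hG1, hr1⟩ := GR_drop s f i hi hg hd _ hGR
      have h01 := ne_res φ _ f f1 hf1 h0e
      have hA1 := aper_res φ hφ _ f f1 hf1 hAe
      have hc1 := cap_res φ _ f f1 hf1 2 hce
      rw [← hc, Nat.add_sub_cancel] at hG1
      have h3 := ih (t - 1) (by omega) (M + 1) (by omega) H ι (s.erase i) f1 ht h01 hc1 hA1 hg1 hG1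
      rw [hc] at h3
      have e2 : t - 1 - (M + 1) = x := by omega
      rw [e2, Nat.add_sub_cancel] at h3
      have e3 : ee (M + 2) = 0 := by
        unfold ee
        rw [if_neg (by omega)]
      have h4 : PQ (ee (M + 2)) x ≤ PQ (ee (M + 1)) x := by
        rw [e3]
        unfold ee
        split_ifs
        · exact PQ_01 x
        · exact le_rfl
      have e4 : M + 2 - 1 = M + 1 := by omega
      have e5 : u = 2 * 2 ^ M := by
        rw [hu, e4]
        ring
      rw [e5, h2, mul_assoc]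
      refine Nat.mul_le_mul_left _ ((Nat.mul_le_mul_left _ h4).trans h3)
  push Not at hdrop
  have hge : ∀ i ∈ s, gen (s.erase i) f = ⊤ := by
    intro i hi
    rw [← hg]
    exact (all_Ba1 G ι f).2.2.2.2.2.1 s i hi (hdrop i hi)
  have hcard : ∀ i ∈ s, (s.erase i).card = t - 1 := by
    intro i hi
    rw [card_erase_of_mem hi, hs]
  have hAe : ∀ i, Aper (FS (s.erase i) f) := fun i =>
    (all_Ba1 G ι f).2.1 s (s.erase i) (erase_subset _ _) hA
  have h0e : ∀ i, ∀ k ∈ s.erase i, f k ≠ 0 := fun i k hk => h0 k (erase_subset _ _ hk)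
  have hce : ∀ i, Cap 2 (s.erase i) f := fun i x =>
    (card_le_card (filter_subset_filter _ (erase_subset _ _))).trans (hcap x)
  have hmono : ∀ i, (FS (s.erase i) f).card ≤ (FS s f).card := fun i =>
    card_le_card (FS_mono (erase_subset _ _) f)
  have hbt : (⊥ : AddSubgroup G) ≠ ⊤ := by
    intro h
    rw [h, crk_top] at hr
    omega
  obtain ⟨X, hXd⟩ : ∃ X, X = (FS s f).card := ⟨_, rfl⟩
  rw [← hXd]
  by_contra hcon
  push Not at hcon
  obtain ⟨Z, hZ⟩ : ∃ Z, Z = u * PQ (ee m) (x - 1) := ⟨_, rfl⟩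
  have hlow : ∀ i ∈ s, Z ≤ 2 * (FS (s.erase i) f).card := by
    intro i hi
    have h4 := ih (t - 1) (by omega) m hm G ι (s.erase i) f (hcard i hi) (h0e i) (hce i)
      (hAe i) (hge i hi) (GR_mono le_rfl (hmono i) hGR)
    have e2 : t - 1 - m = x - 1 := by omega
    rwa [← hu, e2, ← hZ] at h4
  obtain ⟨i1, hi1⟩ : s.Nonempty := by
    rw [← card_pos]
    omega
  obtain ⟨j, hjd⟩ : ∃ j, j = X - (Z + 1) / 2 := ⟨_, rfl⟩
  have hj2 : 2 * j + Z ≤ 2 * X := by
    have h4 := hlow i1 hi1
    have h5 := hmono i1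
    omega
  have hj : ∀ k ∈ s, lam (FS s f) (f k) ≤ j := by
    intro k hk
    have h3 := (all_Ba1 G ι f).2.2.1 s k hk
    have h4 := hlow k hk
    omega
  obtain ⟨R, H', _, _, π, hπs, hπk, hπc, hRt, hC, hRG, q0, qA, qg, qG, hmR, hRr, d2, d3, d6, d7, hek,
    hcr, hlowX, hwin⟩ := setup3 h0 hA hg hge hbt m j hm hj hGR
  have hsubR : (s.filter fun i => f i ∈ R) ⊆ s := filter_subset _ _
  have hYcf := SSX.PAG_all G ι (s.filter fun i => f i ∈ R) f (fun k hk => h0 k (hsubR hk))
    (fun x => (card_le_card (filter_subset_filter _ hsubR)).trans (hcap x))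
    ((all_Ba1 G ι f).2.1 s _ hsubR hA)
  obtain ⟨e, he⟩ : ∃ e, e = (s.filter fun i => f i ∉ R).card := ⟨_, rfl⟩
  obtain ⟨k, hk⟩ : ∃ k, k = (s.filter fun i => f i ∈ R).card := ⟨_, rfl⟩
  obtain ⟨y, hy⟩ : ∃ y, y = Nat.card R := ⟨_, rfl⟩
  obtain ⟨Y, hY⟩ : ∃ Y, Y = (FS (s.filter fun i => f i ∈ R) f).card := ⟨_, rfl⟩
  obtain ⟨N, hN⟩ : ∃ N, N = (FS (s.filter fun i => f i ∉ R) (fun i => π (f i))).card := ⟨_, rfl⟩
  have hXy : crk R ≤ m → X < y * (2 * u) := by
    intro h
    rw [hXd, hy, ← p1]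
    exact hlowX h
  have d2' := d2
  rw [← hN, ← hy, ← hY, ← hXd] at d2'
  have d3' := d3
  rw [← hN, ← hY, ← hXd] at d3'
  have hYcf' := hYcf
  rw [← hk, ← hY] at hYcf'
  have hk1 := d6
  rw [← hk] at hk1
  have d7' := d7
  rw [← hY, ← hy] at d7'
  have hek' := hek
  rw [← he, ← hk, hs] at hek'
  have hcr' := hcr
  rw [← he] at hcr'
  have hap : e - m + 1 + k = x + 1 := by omega
  -- cap two in the quotient
  by_cases hq : Cap 2 (s.filter fun i => f i ∉ R) (fun i => π (f i))
  · rcases Nat.lt_or_ge m 2 with hm1 | hm2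
    · obtain rfl : m = 1 := by omega
      have h5 : u = 1 := by rw [hu]; rfl
      have h3 := SSX.PAG_all H' ι _ _ q0 hq qA
      rw [← he, ← hN] at h3
      have h4 := star2 x e k (by omega) hk1 (by omega)
      have h6 : cf 2 e * cf 2 k ≤ N * Y := Nat.mul_le_mul h3 hYcf'
      have h7 : ee 1 = 1 := rfl
      rw [h5, h7, one_mul] at hcon
      omega
    · obtain ⟨M, rfl⟩ : ∃ M, m = M + 2 := ⟨m - 2, by omega⟩
      have h3 := ih e (by omega) (M + 1) (by omega) H' ι _ _ he.symm q0 hq qA qg qG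
      rw [Nat.add_sub_cancel, ← hN] at h3
      have e2 : e - (M + 1) = e - (M + 2) + 1 := by omega
      rw [e2] at h3
      have e3 : ee (M + 2) = 0 := by
        unfold ee
        rw [if_neg (by omega)]
      have h4 : PQ 0 (e - (M + 2) + 1) ≤ PQ (ee (M + 1)) (e - (M + 2) + 1) := by
        unfold ee
        split_ifs
        · exact PQ_01 _
        · exact le_rfl
      have e4 : M + 2 - 1 = M + 1 := by omega
      have e5 : u = 2 * 2 ^ M := by
        rw [hu, e4]
        ring
      have h6 := star0 x (e - (M + 2) + 1) k (by omega) hk1 hap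
      have h7 : u * PQ 0 (e - (M + 2) + 1) ≤ 4 * N := by
        rw [e5, mul_assoc]
        have h8 := (Nat.mul_le_mul_left (2 ^ M) h4).trans h3
        omega
      have h8 : u * (2 * PQ 0 x) ≤ 4 * X := by
        calc u * (2 * PQ 0 x) ≤ u * (PQ 0 (e - (M + 2) + 1) * cf 2 k) := Nat.mul_le_mul_left _ h6
          _ = u * PQ 0 (e - (M + 2) + 1) * cf 2 k := by ring
          _ ≤ 4 * N * Y := Nat.mul_le_mul h7 hYcf'
          _ = 4 * (N * Y) := by ring
          _ ≤ _ := Nat.mul_le_mul_left _ d3'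
      rw [e3] at hcon
      have h9 : u * (2 * PQ 0 x) = 2 * (u * PQ 0 x) := by ring
      omega
  -- a large class
  obtain ⟨i0, hi0, hb3, hbcap⟩ := best_class _ _ hq
  obtain ⟨hi0s, hi0R⟩ := mem_filter.1 hi0
  obtain ⟨b, hb⟩ : ∃ b, b = ((s.filter fun k => f k ∉ R).filter fun k =>
      π (f k) = π (f i0) ∨ π (f k) = - π (f i0)).card := ⟨_, rfl⟩
  rw [← hb] at hb3 hbcap
  obtain ⟨P, hRP, hiP, hPc, hPL, H, hPH, hH, hst⟩ := hwin i0 hi0s hi0R
  obtain ⟨S', Y', μ, r1, r2, r3, r4, r5, r6, r7⟩ := rowd h0 hA j hj R hC π hπs hπk hπc i0 hi0s hi0R b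
    (hb ▸ le_rfl)
  rw [← hPL] at r4
  rw [← hN] at r5 r6
  rw [← hY] at r5
  rw [← hy] at r4
  rcases Nat.lt_or_ge (crk R) (m + 1) with hR1 | hR1
  · have hXy' := hXy (by omega)
    rcases Nat.lt_or_ge m 2 with hm1 | hm2
    · obtain rfl : m = 1 := by omega
      have h5 : u = 1 := by rw [hu]; rfl
      have h7 : ee 1 = 1 := rfl
      rw [h5, h7, one_mul] at hcon
      rw [h7, h5, one_mul] at hZ
      rw [hZ] at hj2
      rw [hXd] at hcon hj2
      refine caseI2 x j s f (by omega) hx3 h0 hcap hA hcon hj2 hj R π hπs hπk hC (by omega)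
        (hlowX (by omega)) d6 (by omega) hek hYcf
    · obtain ⟨M, rfl⟩ : ∃ M, m = M + 2 := ⟨m - 2, by omega⟩
      have e3 : ee (M + 2) = 0 := by
        unfold ee
        rw [if_neg (by omega)]
      have e4 : M + 2 - 1 = M + 1 := by omega
      obtain ⟨v, hv⟩ : ∃ v, v = 2 ^ M := ⟨_, rfl⟩
      have e5 : u = 2 * v := by
        rw [hu, e4, hv]
        ring
      rw [e3] at hcon hZ
      -- windows
      have hW : ∀ H2 : AddSubgroup G, R ≤ H2 → f i0 ∈ H2 →
          Nat.card H2 * 2 ^ crk H2 ≤ (st (FS s f) P).card → M + 2 ≤ crk H2 + 1 := by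
        intro H2 hR2 hi2 hst2
        by_contra hcn
        obtain ⟨K2, hRK, hK1, hK2⟩ := r7 H2 hR2 hi2
        have h3 := hRG K2 hRK (by omega)
        rw [← q_card s f hπk, ← hy, ← hN] at h3
        exact M_win N y S' Y' μ _ _ (crk H2) (crk K2) r2 r3 hK1 hK2 h3 (hst2.trans r4) r6
      have hHw := hW H (hRP.trans hPH) (hPH hiP) hst
      have hPC : Cd s f P := by
        rcases hPc with h | h
        · exfalso
          rw [h] at hPH
          have h3 : H = ⊤ := top_le_iff.1 hPH
          rw [h3, crk_top] at hHw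
          omega
        · exact h
      have hPG : GR (M + 1) P (st (FS s f) P).card := by
        intro H2 hP2 hc2
        by_contra hcn
        push Not at hcn
        have := hW H2 (hRP.trans hP2) (hP2 hiP) hcn
        omega
      have hPr : M + 1 ≤ crk P := by
        by_contra hcn
        have h1 := hPG P le_rfl (by omega)
        have := Fintype.ofFinite G
        have h2 := pow_crk_le P s f (by
          rw [eq_top_iff, ← hg]
          unfold gen
          exact le_sup_right)
        rw [← st_sat] at h2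
        omega
      have hPe := crk_nodrop hPC.1 hge hg
      have hPek : (s.filter fun i => f i ∉ P).card + (s.filter fun i => f i ∈ P).card = s.card := by
        rw [add_comm]
        exact Finset.card_filter_add_card_filter_not (s := s) (fun i => f i ∈ P)
      obtain ⟨H'', _, _, ρ, hρs, hρk, hρc⟩ := q_exists G P
      obtain ⟨g1, g2, g3, g4, g5⟩ := Cd_data hρs hρk hPC h0 hA j hj
      have hNG : GR (M + 1) (⊥ : AddSubgroup H'')
          (FS (s.filter fun i => f i ∉ P) (fun i => ρ (f i))).card := by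
        apply GR_quot P ρ hρs hρk hρc
        rw [q_card s f hρk]
        exact hPG
      have hSP := thm_SIm (M + 1) (by omega) H'' ι _ _ (q_ne s f hρk) g1 (q_gen s f hρs hρk hg) hNG
      obtain ⟨H1, _, _, φ, f1, hφ, hf1, hc1, hg1, hG1⟩ := M_inner h0 hA (M + 2) hGR P hPC H hPH hH hst
      have hsubP : (s.filter fun i => f i ∈ P) ⊆ s := filter_subset _ _
      obtain ⟨k', hk'⟩ : ∃ k', k' = (s.filter fun i => f i ∈ P).card := ⟨_, rfl⟩
      have hk'x : k' ≤ x := by omega
      have hkb : k + b ≤ k' := by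
        rw [hk, hb, hk', ← card_union_of_disjoint]
        · apply card_le_card
          intro l hl
          rcases mem_union.1 hl with hl | hl
          · obtain ⟨hl1, hl2⟩ := mem_filter.1 hl
            exact mem_filter.2 ⟨hl1, hRP hl2⟩
          · obtain ⟨hl1, hl2⟩ := mem_filter.1 hl
            refine mem_filter.2 ⟨(mem_filter.1 hl1).1, ?_⟩
            rcases hl2 with hl2 | hl2
            · have h3 : f l - f i0 ∈ R := by
                rw [← hπk, map_sub, hl2, sub_self]
              have h4 : f l = (f l - f i0) + f i0 := by abel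
              rw [h4]
              exact P.add_mem (hRP h3) hiP
            · have h3 : f l + f i0 ∈ R := by
                rw [← hπk, map_add, hl2, neg_add_cancel]
              have h4 : f l = (f l + f i0) - f i0 := by abel
              rw [h4]
              exact P.sub_mem (hRP h3) hiP
        · rw [disjoint_left]
          intro l hl hl'
          exact (mem_filter.1 (mem_filter.1 hl').1).2 (mem_filter.1 hl).2
      have hV := ih k' (by omega) 1 le_rfl H1 ι (s.filter fun i => f i ∈ P) f1 hk'.symm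
        (ne_res φ _ f f1 hf1 (fun l hl => h0 l (hsubP hl)))
        (cap_res φ _ f f1 hf1 2 (fun x => (card_le_card (filter_subset_filter _ hsubP)).trans (hcap x)))
        (aper_res φ hφ _ f f1 hf1 ((all_Ba1 G ι f).2.1 s _ hsubP hA)) hg1 hG1
      have e6 : ee 1 = 1 := rfl
      have e7 : k' - 1 + 1 = k' := by omega
      rw [hc1, e6, PQ_pn, e7, Nat.sub_self, pow_zero, one_mul] at hV
      have hN1 := thm_SIm (M + 2) (by omega) H' ι _ _ q0 qA qg qG
      rw [← he, ← hN, ← hu] at hN1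
      have hbcap2 : Cap (2 * ((b + 1) / 2)) (s.filter fun i => f i ∉ R) (fun i => π (f i)) :=
        fun z => (hbcap z).trans (by omega)
      have hN2 := thm_Sm ((b + 1) / 2) (by omega) (M + 2) (by omega) H' ι _ _ q0 hbcap2 qA qg qG
      rw [← he, ← hN, ← hu] at hN2
      rw [Nat.add_sub_cancel, ← hv] at hSP
      have e8 : e + 2 - (M + 2) = x - k + 2 := by omega
      have e9 : e + 1 - (M + 2) = x - k + 1 := by omega
      have e10 : (s.filter fun i => f i ∉ P).card + 2 - (M + 1) = x - k' + 3 := by omega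
      rw [e8, e5] at hN1
      rw [e9, e5] at hN2
      rw [e10] at hSP
      rw [e5] at hcon hXy'
      rw [hZ, e5] at hj2
      have e11 : 2 * (2 * v) = 4 * v := by ring
      rw [e11] at hXy'
      rw [← hXd] at g3
      exact I_num x k v X j N Y y b ((b + 1) / 2) k' _ _ hx3 hk1 (by omega) hcon hj2 hXy' d2' d3'
        hYcf' d7' hN1 hb3 (by omega) (by omega) hN2 hkb hk'x hSP (by omega) g3
  · -- Case II
    have h3 := thm_LINm (m + 1) (by omega) H' ι _ _ q0 qA qg (by omega) (by
      rw [Nat.add_sub_cancel]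
      exact qG)
    rw [Nat.add_sub_cancel, p1, ← he, ← hN] at h3
    have e2 : 2 * e + 3 - 2 * (m + 1) = 2 * (x - k) + 1 := by omega
    rw [e2] at h3
    have h4 : u * (2 * (x - k) + 1) ≤ N := by
      have h5 : 2 * u * (2 * (x - k) + 1) = 2 * (u * (2 * (x - k) + 1)) := by ring
      omega
    obtain ⟨K2, hRK, hK1, hK2⟩ := r7 H (hRP.trans hPH) (hPH hiP)
    have h5 := hGR K2 bot_le (by omega)
    rw [← hXd] at h5
    have h6 : X < Nat.card K2 * 2 ^ (crk H + 1) :=
      lt_of_lt_of_le h5 (Nat.mul_le_mul_left _ (Nat.pow_le_pow_right (by norm_num) hK1))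
    have h7 := D_b X N Y y j S' Y' μ 3 _ _ (crk H) (by omega) r3 hK2 h6 (hst.trans r4) r5 d2'
    exact II_num (ee m) x k u X j N Y y μ (ee_le m) hx3 hk1 (by omega) hu1 hcon
      (by rw [← hZ]; exact hj2) h4 d3' hYcf' d7' d2' (by omega) h7

/-- **(A), all levels.** -/
theorem thm_A (m : ℕ) (hm : 1 ≤ m) (G ι : Type) [AddCommGroup G] [Finite G]
    (s : Finset ι) (f : ι → G) (h0 : ∀ i ∈ s, f i ≠ 0) (hcap : Cap 2 s f)
    (hA : Aper (FS s f)) (hg : gen s f = ⊤) (hG : GR (m + 1) (⊥ : AddSubgroup G) (FS s f).card) :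
    2 ^ (m - 1) * PQ (ee m) (s.card - m) ≤ 2 * (FS s f).card :=
  thm_StA s.card m hm G ι s f rfl h0 hcap hA hg hG

/-- level two -/
theorem thm_A2 (G ι : Type) [AddCommGroup G] [Finite G]
    (s : Finset ι) (f : ι → G) (h0 : ∀ i ∈ s, f i ≠ 0) (hcap : Cap 2 s f)
    (hA : Aper (FS s f)) (hg : gen s f = ⊤) (hG : GR 2 (⊥ : AddSubgroup G) (FS s f).card) :
    pn s.card ≤ (FS s f).card := by
  have h1 := thm_A 1 le_rfl G ι s f h0 hcap hA hg hG
  have h2 := crk_bot_le s f hg
  have h3 := GR_rank s f hg hG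
  have e6 : ee 1 = 1 := rfl
  have e7 : s.card - 1 + 1 = s.card := by omega
  rw [e6, PQ_pn, e7, Nat.sub_self, pow_zero, one_mul] at h1
  omega

/-- levels at least three -/
theorem thm_A3 (m : ℕ) (hm : 3 ≤ m) (G ι : Type) [AddCommGroup G] [Finite G]
    (s : Finset ι) (f : ι → G) (h0 : ∀ i ∈ s, f i ≠ 0) (hcap : Cap 2 s f)
    (hA : Aper (FS s f)) (hg : gen s f = ⊤) (hG : GR m (⊥ : AddSubgroup G) (FS s f).card) :
    2 ^ (m - 3) * PQ 0 (s.card + 1 - m) ≤ (FS s f).card := by
  obtain ⟨M, rfl⟩ : ∃ M, m = M + 3 := ⟨m - 3, by omega⟩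
  have h1 := thm_A (M + 2) (by omega) G ι s f h0 hcap hA hg hG
  have e3 : ee (M + 2) = 0 := by
    unfold ee
    rw [if_neg (by omega)]
  have e4 : M + 2 - 1 = M + 1 := by omega
  have e5 : s.card + 1 - (M + 3) = s.card - (M + 2) := by omega
  rw [e3, e4, pow_succ] at h1
  rw [Nat.add_sub_cancel, e5]
  have h2 : 2 ^ M * 2 * PQ 0 (s.card - (M + 2)) = 2 * (2 ^ M * PQ 0 (s.card - (M + 2))) := by ring
  omega

end Pool.Agent.SNA
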