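import Pool.Agent.SNA.Al
import Pool.Agent.SNV.Asm

/-!
# SNA, module Top (helper91): the top level for cap 2, all finite abelian groups
-/

set_option autoImplicit false

noncomputable section

open Finset Pool.Agent.Helper64.Rho
open scoped Classical Pointwise

namespace Pool.Agent.SNA

open Pool.Agent.SDG Pool.Agent.SNW Pool.Agent.SNR

/-- the bound at every level `m ≥ 1` (members outside the group of the others allowed, `m` not necessarily the rank) -/
theorem thm_level (G ι : Type) [AddCommGroup G] [Finite G] (m : ℕ) (s : Finset ι) (f : ι → G) (hm : 1 ≤ m)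
    (h0 : ∀ i ∈ s, f i ≠ 0) (hcap : Cap 2 s f) (hA : Aper (FS s f)) (hg : gen s f = ⊤)
    (hG : GR m (⊥ : AddSubgroup G) (FS s f).card) :
      2 ^ (m - 1) * cf 2 (s.card + 1 - m) ≤ (FS s f).card ∨
        (2 ≤ m ∧ s.card = m + 2 ∧ 9 * 2 ^ (m - 2) ≤ (FS s f).card) ∨
        (2 ≤ m ∧ s.card = m + 4 ∧ 19 * 2 ^ (m - 2) ≤ (FS s f).card) ∨
        (3 ≤ m ∧ s.card = m + 3 ∧ 27 * 2 ^ (m - 3) ≤ (FS s f).card) := by
  rcases Nat.lt_or_ge m 2 with h2 | h2
  · obtain rfl : m = 1 := by omega
    left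
    have h3 := SSX.PAG_all G ι s f h0 hcap hA
    rwa [Nat.sub_self, pow_zero, one_mul, Nat.add_sub_cancel]
  rcases Nat.lt_or_ge m 3 with h3 | h3
  · obtain rfl : m = 2 := by omega
    have h4 := thm_A2 G ι s f h0 hcap hA hg hG
    unfold pn at h4
    split_ifs at h4 with h5 h6
    · right; left
      exact ⟨le_rfl, by omega, by simpa using h4⟩
    · right; right; left
      exact ⟨le_rfl, by omega, by simpa using h4⟩
    · left
      have e1 : s.card + 1 - 2 = s.card - 1 := by omega
      have e2 : 2 ^ (2 - 1) = 2 := by norm_num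
      rw [e1, e2]
      exact h4
  · have h4 := thm_A3 m h3 G ι s f h0 hcap hA hg hG
    obtain ⟨M, rfl⟩ : ∃ M, m = M + 3 := ⟨m - 3, by omega⟩
    have e1 : M + 3 - 1 = M + 2 := by omega
    have e2 : M + 3 - 2 = M + 1 := by omega
    have p1 : 2 ^ (M + 1) = 2 * 2 ^ M := by ring
    have p2 : 2 ^ (M + 2) = 4 * 2 ^ M := by ring
    rw [e1, e2, Nat.add_sub_cancel, p1, p2]
    rw [Nat.add_sub_cancel] at h4
    unfold PQ at h4
    split_ifs at h4 with h5 h6 h7
    · right; left
      exact ⟨by omega, by omega, by omega⟩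
    · right; right; right
      exact ⟨by omega, by omega, by omega⟩
    · right; right; left
      exact ⟨by omega, by omega, by omega⟩
    · left
      have e3 : 4 * 2 ^ M * cf 2 (s.card + 1 - (M + 3)) = 2 ^ M * (4 * cf 2 (s.card + 1 - (M + 3))) := by ring
      rw [e3]
      exact h4

/-- **St_TopR.** -/
theorem thm_TopR : SNV.St_TopR := fun G ι _ _ m s f _ hm h0 hcap hA hg _ hG =>
  thm_level G ι m s f hm h0 hcap hA hg hG

/-- **St_SmR.** -/
theorem thm_SmR : SNV.St_SmR := fun G ι _ _ h m s f hh hm h0 hcap hA hg hG =>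
  thm_Sm h hh m hm G ι s f h0 hcap hA hg hG

end Pool.Agent.SNA
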